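import Mathlib

/-!
# Regularity radius of Delone sets in three dimensions: basic definitions and API
-/

set_option autoImplicit false

namespace Pool.Agent.H576.RD

/-- Euclidean 3-space. -/
abbrev E := EuclideanSpace ℝ (Fin 3)

/-- Linear isometries of 3-space (the group O(3)); `(g * h) v = g (h v)`. -/
abbrev LI := E ≃ₗᵢ[ℝ] E

/-- `X` is an `(r', 1)`-Delone set (distinct points are at distance `≥ r`, closed unit balls meet `X`). -/
structure Del (r : ℝ) (X : Set E) : Prop where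
  rpos : 0 < r
  sep : ∀ x ∈ X, ∀ y ∈ X, x ≠ y → r ≤ ‖y - x‖
  cov : ∀ z : E, ∃ x ∈ X, ‖x - z‖ ≤ 1

/-- The linear isometry `g` maps the `ρ`-cluster at `x` (moved to the origin) onto the one at `y`. -/
def Eqv (X : Set E) (x y : E) (ρ : ℝ) (g : LI) : Prop :=
  ∀ v : E, ‖v‖ ≤ ρ → (x + v ∈ X ↔ y + g v ∈ X)

/-- All `ρ`-clusters are equivalent. -/
def Nn (X : Set E) (ρ : ℝ) : Prop := ∀ x ∈ X, ∀ y ∈ X, ∃ g : LI, Eqv X x y ρ g

/-- Regularity. -/
def Reg (X : Set E) : Prop :=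
  ∀ x ∈ X, ∀ y ∈ X, ∃ g : E ≃ᵢ E, g '' X = X ∧ g x = y

theorem Eqv.refl (X : Set E) (x : E) (ρ : ℝ) : Eqv X x x ρ 1 := fun _ _ => Iff.rfl

theorem Eqv.mono {X : Set E} {x y : E} {ρ σ : ℝ} {g : LI} (h : Eqv X x y ρ g) (hσ : σ ≤ ρ) :
    Eqv X x y σ g := fun v hv => h v (hv.trans hσ)

theorem Eqv.symm {X : Set E} {x y : E} {ρ : ℝ} {g : LI} (h : Eqv X x y ρ g) :
    Eqv X y x ρ g⁻¹ := by
  intro v hv
  have h1 : ‖(g⁻¹ : LI) v‖ ≤ ρ := by rwa [LinearIsometryEquiv.norm_map]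
  have h2 := h ((g⁻¹ : LI) v) h1
  have h3 : g ((g⁻¹ : LI) v) = v := LinearIsometryEquiv.apply_symm_apply g v
  rw [h3] at h2
  exact h2.symm

theorem Eqv.trans {X : Set E} {x y z : E} {ρ : ℝ} {g h : LI} (hg : Eqv X x y ρ g)
    (hh : Eqv X y z ρ h) : Eqv X x z ρ (h * g) := by
  intro v hv
  have h1 : ‖g v‖ ≤ ρ := by rwa [LinearIsometryEquiv.norm_map]
  exact (hg v hv).trans (hh (g v) h1)

/-- Shift of the centre: if `g` is an equivalence at radius `ρ` and `‖v‖ + σ ≤ ρ`, then `g` is an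
equivalence at radius `σ` between the shifted centres `x + v` and `y + g v`. -/
theorem Eqv.shift {X : Set E} {x y : E} {ρ σ : ℝ} {g : LI} (h : Eqv X x y ρ g) (v : E)
    (hv : ‖v‖ + σ ≤ ρ) : Eqv X (x + v) (y + g v) σ g := by
  intro w hw
  have h1 : ‖v + w‖ ≤ ρ := (norm_add_le v w).trans (by linarith)
  have h2 := h (v + w) h1
  rw [map_add] at h2
  rw [add_assoc, add_assoc]
  exact h2

theorem Nn.mono {X : Set E} {ρ σ : ℝ} (h : Nn X ρ) (hσ : σ ≤ ρ) : Nn X σ :=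
  fun x hx y hy => (h x hx y hy).imp fun _ hg => hg.mono hσ

/-- The stabiliser `S_x(ρ)`. -/
def Aut (X : Set E) (x : E) (ρ : ℝ) : Subgroup LI where
  carrier := {g | Eqv X x x ρ g}
  mul_mem' := fun ha hb => Eqv.trans hb ha
  one_mem' := Eqv.refl X x ρ
  inv_mem' := fun ha => Eqv.symm ha

theorem mem_Aut {X : Set E} {x : E} {ρ : ℝ} {g : LI} :
    g ∈ Aut X x ρ ↔ ∀ v : E, ‖v‖ ≤ ρ → (x + v ∈ X ↔ x + g v ∈ X) := Iff.rfl

theorem Aut_anti {X : Set E} {x : E} {ρ σ : ℝ} (h : σ ≤ ρ) : Aut X x ρ ≤ Aut X x σ :=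
  fun _ hg => Eqv.mono hg h

/-- `X` is connected by steps of length at most `L`. -/
def Conn (X : Set E) (L : ℝ) : Prop :=
  ∀ x ∈ X, ∀ y ∈ X, Relation.ReflTransGen (fun p q => q ∈ X ∧ ‖q - p‖ ≤ L) x y

/-- Lens partners: every `x ∈ X` has a point `b ∈ X` at distance `L` such that no point of `X` is at
distance `< L` from both. -/
def Lens (X : Set E) (L : ℝ) : Prop :=
  ∀ x ∈ X, ∃ b ∈ X, ‖b - x‖ = L ∧ ∀ z ∈ X, ‖z - x‖ < L → L ≤ ‖z - b‖

/-- `s` is the minimal distance, attained at every point. -/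
structure MinD (X : Set E) (s : ℝ) : Prop where
  pos : 0 < s
  le : ∀ x ∈ X, ∀ y ∈ X, x ≠ y → s ≤ ‖y - x‖
  att : ∀ x ∈ X, ∃ y ∈ X, ‖y - x‖ = s

/-- Number of prime factors with multiplicity. -/
def Om (n : ℕ) : ℕ := n.primeFactorsList.length

/-- No invariant line. -/
def Irr (G : Subgroup LI) : Prop := ∀ a : E, a ≠ 0 → ∃ g ∈ G, g a ≠ a ∧ g a ≠ -a

/-- The inversion `v ↦ -v`. -/
noncomputable def negI : LI := LinearIsometryEquiv.neg ℝ

@[simp] theorem negI_apply (v : E) : negI v = -v := rfl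

/-- Third basis vector. -/
noncomputable def e2 : E := EuclideanSpace.single (2 : Fin 3) (1 : ℝ)

/-- Rotation by `θ` about the third axis (as a map). -/
noncomputable def rotE (θ : ℝ) (v : E) : E :=
  !₂[Real.cos θ * v 0 - Real.sin θ * v 1, Real.sin θ * v 0 + Real.cos θ * v 1, v 2]

/-- Rotoreflection by `θ` about the third axis (as a map). -/
noncomputable def rrE (θ : ℝ) (v : E) : E :=
  !₂[Real.cos θ * v 0 - Real.sin θ * v 1, Real.sin θ * v 0 + Real.cos θ * v 1, -(v 2)]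

/-- Mirror through the third axis. -/
noncomputable def mirE (v : E) : E := !₂[v 0, -(v 1), v 2]

/-- Cyclic permutation of the coordinates. -/
noncomputable def cycE (v : E) : E := !₂[v 1, v 2, v 0]

/-- Half turn about the first coordinate axis. -/
noncomputable def dE (v : E) : E := !₂[v 0, -(v 1), -(v 2)]

/-- Swap of the first two coordinates. -/
noncomputable def swE (v : E) : E := !₂[v 1, v 0, v 2]

/-- Rotation by `90` degrees about the third axis. -/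
noncomputable def qE (v : E) : E := !₂[-(v 1), v 0, v 2]

/-- In the frame `β`, the group `G` contains the map `f`. -/
def HasB (G : Subgroup LI) (β : LI) (f : E → E) : Prop := ∃ g ∈ G, ∀ v, g (β v) = β (f v)

/-- The `ρ`-cluster of `X` at the origin is invariant under `f`. -/
def Sym (X : Set E) (ρ : ℝ) (f : E → E) : Prop := ∀ v : E, ‖v‖ ≤ ρ → (v ∈ X ↔ f v ∈ X)

/-- Off the third axis. -/
def Off (v : E) : Prop := v 0 ≠ 0 ∨ v 1 ≠ 0

/-- Determinant of a linear isometry. -/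
noncomputable def dt (g : LI) : ℝ := LinearMap.det (g.toLinearEquiv : E →ₗ[ℝ] E)

/-- The lattice spanned by the nearest vectors at `x`. -/
def Lam (X : Set E) (s : ℝ) (x : E) : AddSubgroup E :=
  AddSubgroup.closure {v : E | ‖v‖ = s ∧ x + v ∈ X}

/-- Layer structure at `x` with respect to the unit vector `a`. -/
structure LayerAt (X : Set E) (a : E) (s : ℝ) (x : E) : Prop where
  flat : ∀ v ∈ Lam X s x, inner ℝ v a = 0 ∧ x + v ∈ X
  same : ∀ v ∈ Lam X s x, ∀ w : E, ‖w‖ = s → (x + v + w ∈ X ↔ x + w ∈ X)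
  slab : ∀ z ∈ X, |inner ℝ (z - x) a| < 1.7 → z - x ∈ Lam X s x
  dense : ∀ w : E, inner ℝ w a = 0 → ∃ v ∈ Lam X s x, ‖w - v‖ ≤ 0.87 * s
  near : ∀ z ∈ X, ‖z - x‖ ≤ 1.8 → z - x ∈ Lam X s x

/-- The four unit vertex vectors of a regular tetrahedron. -/
noncomputable def tv (i : Fin 4) : E :=
  (1 / Real.sqrt 3) •
    ((![!₂[(1 : ℝ), 1, 1], !₂[(1 : ℝ), -1, -1], !₂[(-1 : ℝ), 1, -1], !₂[(-1 : ℝ), -1, 1]] :
      Fin 4 → E) i)

/-- `x` has exactly the four neighbours `x - s u_i` within distance `< L`, and `x + L u_i ∈ X`. -/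
structure TetAt (X : Set E) (s L : ℝ) (x : E) (u : Fin 4 → E) : Prop where
  unit : ∀ i, ‖u i‖ = 1
  gram : ∀ i j, i ≠ j → inner ℝ (u i) (u j) = -(1 / 3 : ℝ)
  nb : ∀ i, x - s • u i ∈ X
  only : ∀ z ∈ X, z ≠ x → ‖z - x‖ < L → ∃ i, z = x - s • u i
  lp : ∀ i, x + L • u i ∈ X

/-- Hypotheses of the case of the group of order 16 with a rotoreflection of order 8. -/
structure D4H (r : ℝ) (X : Set E) (L d : ℝ) : Prop where
  del : Del r X
  nn : Nn X 9
  zero : (0 : E) ∈ X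
  sg : Sym X 2 (rrE (Real.pi / 4))
  sm : Sym X 2 mirE
  Lpos : 0 < L
  L2 : L ≤ 2
  conn : Conn X L
  lens : Lens X L
  dpos : 0 < d
  d2 : d ≤ 2
  datt : ∃ v ∈ X, ‖v‖ = d ∧ Off v
  dle : ∀ v ∈ X, ‖v‖ ≤ 2 → Off v → d ≤ ‖v‖

/-- Hypotheses of the layered case. -/
structure BH (r : ℝ) (X : Set E) (L : ℝ) (n : ℕ) : Prop where
  del : Del r X
  nn : Nn X 9
  zero : (0 : E) ∈ X
  hn : n = 4 ∨ n = 6
  srot : Sym X 1.8 (rotE (2 * Real.pi / n))
  ssig : Sym X 1.8 (rrE 0)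
  lens : Lens X L
  hL : 1.999999 ≤ L
  hL2 : L ≤ 2
  small : ∃ v ∈ X, ‖v‖ ≤ 0.2 ∧ Off v

/-- The set `X` moved by the frame `β` at `x`. -/
def Mv (X : Set E) (x : E) (β : LI) : Set E := {v | x + β v ∈ X}

end Pool.Agent.H576.RD
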