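import Mathlib
import Pool.Agent.H576.RD.Basic

/-!
# Regularity radius of Delone sets in 3-space is < 10: statements of the lemmas

Covering radius is normalised to 1.  `K_x(ρ) = {v | ‖v‖ ≤ ρ, x + v ∈ X}`, `S_x(ρ) = Aut X x ρ`.
All statements are `def S_NAME : Prop := ...`; the docstring has the complete paper proof.
-/

set_option autoImplicit false

open Real

namespace Pool.Agent.H576.RD

/-- FINK. Clusters are finite: the set `{v | ‖v‖ ≤ ρ, x+v ∈ X}` is `r`-separated in a compact ball. -/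
def S_FINK : Prop := ∀ (r : ℝ) (X : Set E) (x : E) (ρ : ℝ), Del r X →
  {v : E | ‖v‖ ≤ ρ ∧ x + v ∈ X}.Finite

/-- T0. For `x ∈ X` and a unit vector `e` there is `v ≠ 0`, `x+v ∈ X`, `‖v‖ ≤ 2`, `‖v‖^2 ≤ 2<v,e>`.
Proof: for `t > 1` take `y ∈ X` with `‖y-(x+t e)‖ ≤ 1`, `v_t = y - x`. Then `v_t ≠ 0` (as `t > 1`) and
`‖v_t‖^2 - 2t<v_t,e> + t^2 ≤ 1`, so `‖v_t‖^2 ≤ 2t<v_t,e>`. For `t = 1 + 1/n` all `v_t` lie in the finite set
`K_x(3)` (FINK), so one `v` occurs for infinitely many `n`; let `n → ∞`. `‖v‖ ≤ 2` by Cauchy-Schwarz. -/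
def S_T0 : Prop := ∀ (r : ℝ) (X : Set E), Del r X → ∀ x ∈ X, ∀ e : E, ‖e‖ = 1 →
  ∃ v : E, v ≠ 0 ∧ ‖v‖ ≤ 2 ∧ x + v ∈ X ∧ ‖v‖ ^ 2 ≤ 2 * inner ℝ v e

/-- MIN. The minimal distance exists, is `≤ 2` and is attained at every point.
Proof: `K_x(2) \ {0}` is finite (FINK) and nonempty (T0); let `s` be the minimal norm; by `Nn X 2` it is the
same for all `x ∈ X`. -/
def S_MIN : Prop := ∀ (r : ℝ) (X : Set E), Del r X → Nn X 2 → ∃ s, s ≤ 2 ∧ MinD X s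

/-- FIN. If `K_x(ρ)` contains two linearly independent vectors, then `S_x(ρ)` is finite.
Proof: `g ∈ S_x(ρ)` maps the finite set `K_x(ρ)` to itself; `g` is determined by the images of `v` and `w`
and its determinant sign (two isometries which agree on `v,w` agree on the plane; on the normal line there
are two choices). -/
def S_FIN : Prop := ∀ (r : ℝ) (X : Set E) (x : E) (ρ : ℝ) (v w : E), Del r X →
  ‖v‖ ≤ ρ → ‖w‖ ≤ ρ → x + v ∈ X → x + w ∈ X → LinearIndependent ℝ ![v, w] → Finite (Aut X x ρ)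

/-- T4. There is a bottleneck length `L`.
Proof. (1) `X` is connected by steps `≤ 2`: for `x ≠ y` in `X` with `‖y-x‖ > 2` take `e = (y-x)/‖y-x‖` and `v`
from T0; `‖x+v-y‖^2 = ‖v‖^2 - 2‖y-x‖<v,e> + ‖y-x‖^2 ≤ ‖y-x‖^2 - ‖v‖^2(‖y-x‖-1)`, a decrease by at least `r^2`;
induct.
(2) The set `D` of norms of nonzero vectors of `K_x(2)` is finite (FINK), and the same for all `x` (`Nn X 2`).
`Conn X 2` implies `Conn X (max D)`; let `L` be the least element of `D` with `Conn X L` (L > 0).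
(3) There is a pair `a,b ∈ X` with `‖b-a‖ = L` which is not connected by a chain of steps `< L` in `X`
(otherwise every step of length `L` could be replaced by a chain of steps `< L`, i.e. `≤ L'` with `L'` the
largest element of `D` below `L` (or `0` if there is none, then all steps are trivial), and `Conn X L'`,
a contradiction, resp. `X` would be a single point, contradicting T0).
(4) No `z ∈ X` has `‖z-a‖ < L` and `‖z-b‖ < L` (it would be a chain of two steps `< L`).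
(5) By `Nn X 2` every `x ∈ X` has such a partner: take `g` with `Eqv X a x 2 g`, partner `x + g (b-a)`. -/
def S_T4 : Prop := ∀ (r : ℝ) (X : Set E), Del r X → Nn X 2 →
  ∃ L, 0 < L ∧ L ≤ 2 ∧ Conn X L ∧ Lens X L

/-- T2 (tower bound). Proof.
Criterion (T1): if `Conn X L`, `Nn X (σ+L)`, and `S_y(σ) = S_y(σ+L)` for all `y ∈ X` (`σ ≥ 0`), then `Reg X`:
let `x,y ∈ X`, `g` with `Eqv X x y (σ+L) g`, `F z = y + g (z-x)`. Claim: for every `z ∈ X`, `F z ∈ X` and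
`Eqv X z (F z) (σ+L) g`. Induct along an `L`-chain from `x`. Step `z → z'`, `‖z'-z‖ ≤ L`: `F z' ∈ X` and
`Eqv X z' (F z') σ g` by `Eqv.shift`. Take `h` with `Eqv X z' (F z') (σ+L) h`; `h⁻¹ g ∈ S_{z'}(σ) = S_{z'}(σ+L)`,
so `g = h (h⁻¹ g)` is an equivalence at radius `σ+L`. Hence `F '' X ⊆ X`; the same for `g⁻¹` (from `y` to `x`)
gives `F⁻¹ '' X ⊆ X`. So `F '' X = X`, `F x = y`.
Tower: the groups `S_x(ρ+iL)`, `i = 0..k`, decrease. If all `k` inclusions are strict, then by Lagrange the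
orders `n_0 > n_1 > ... > n_k` divide each other, so `Om n_0 ≥ k`, a contradiction. So
`S_x(ρ+iL) = S_x(ρ+(i+1)L)` for some `i < k`, and for all `y ∈ X` by conjugation with an equivalence
`Eqv X x y (ρ+kL) g`. Apply the criterion with `σ = ρ+iL`. -/
def S_T2 : Prop := ∀ (X : Set E) (x : E) (ρ L : ℝ) (k : ℕ), x ∈ X → 0 ≤ ρ → 0 < L → Conn X L →
  Nn X (ρ + k * L) → Finite (Aut X x ρ) → Om (Nat.card (Aut X x ρ)) < k → Reg X

/-- T3 (locally antipodal sets are regular). Proof.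
There is `γ ∈ (0,1]` such that no two points of `X` are at distance in `(2, 2+γ]` (finitely many norms in
`K_x(3)` by FINK, the same for all `x ∈ X` by `Nn X 3`).
(1) For all `x, z ∈ X`: `2x - z ∈ X`. Induct on `n` with `‖z-x‖ ≤ 2 + γ 2^n`. For `n = 0` this is the hypothesis.
Step: let `R = ‖z-x‖ ≤ 2+γ2^(n+1)`, `R > 2`, `m` the midpoint, `y ∈ X` with `‖y-m‖ ≤ 1`. Then `‖y-x‖` and
`‖y-z‖ ≤ R/2+1 ≤ 2+γ2^n`. So `p = 2y - z ∈ X`, `w = 2x - y ∈ X`. `‖p - x‖ = 2‖y-m‖ ≤ 2`, so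
`q = 2x - p = 2x - 2y + z ∈ X`. `‖q - w‖ = ‖z-y‖`, so `2w - q = 2x - z ∈ X`.
(2) Let `x, x' ∈ X`, `g` with `Eqv X x x' 2 g`, `F z = x' + g (z-x)`. Then `F z ∈ X` for all `z ∈ X`: induct
as before on `‖z-x‖ ≤ 2+γ2^n`: for `R > 2` take `y ∈ X` near the midpoint, `z₁ = 2y - z ∈ X` by (1),
`‖z₁-x‖ ≤ 2`, `‖y-x‖ ≤ R/2+1`; `F y, F z₁ ∈ X`, and `F z = 2 F y - F z₁ ∈ X` by (1). Same for `g⁻¹`. -/
def S_T3 : Prop := ∀ (r : ℝ) (X : Set E), Del r X → Nn X 3 →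
  (∀ x ∈ X, ∀ v : E, ‖v‖ ≤ 2 → x + v ∈ X → x - v ∈ X) → Reg X

/-- T9 (averages over irreducible groups). Proof. `∑_g g b` is fixed by `G`, so it is `0` (otherwise it
spans an invariant line). `Q u = ∑_g <u, g b>^2` is a `G`-invariant quadratic form, `Q u = <T u, u>` with
`T u = ∑_g <u, g b> g b` symmetric and commuting with `G`. An eigenspace of `T` is `G`-invariant and nonzero;
if its dimension is 1 it is an invariant line, if it is 2 its orthogonal complement is one; so `T = λ id`, and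
the trace gives `λ = |G| ‖b‖²/3`. So for unit vectors, with `t_g = <u, g b> ≥ -1`: `∑ t_g = 0`,
`∑ t_g² = |G|/3`. The second claim is immediate. First claim: `∑ (t_g + 1)(t_g - 1/3) = 0`; if all
`t_g < 1/3` every term is `≤ 0`, so all `t_g = -1`, contradicting `∑ t_g = 0`. -/
def S_T9 : Prop := ∀ G : Subgroup LI, Finite G → Irr G → ∀ u b : E, ‖u‖ = 1 → ‖b‖ = 1 →
  (∃ g ∈ G, (1 / 3 : ℝ) ≤ inner ℝ u (g b)) ∧ (∃ g ∈ G, (1 / 3 : ℝ) ≤ (inner ℝ u (g b)) ^ 2)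

/-- POLE (finite rotation groups without invariant line). Proof: pole counting. Let `N = |G|`, `P` the set of
unit vectors `p` fixed by some `g ∈ G`, `g ≠ 1` (poles; finite: every rotation `≠ 1` fixes exactly two unit
vectors). `G` acts on `P`. Burnside (`MulAction.sum_card_fixedBy_eq_card_orbits_mul_card_group`):
`|P| + 2(N-1) = k N` with `k` the number of orbits, and `|P| = ∑ N/n_i` with `n_i ≥ 2` the orders of the
stabilisers. So `2(1 - 1/N) = ∑_{i ≤ k} (1 - 1/n_i)`, hence `k = 2` or `3` (`N ≥ 2` since `G` has no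
invariant line). `k = 2`: `N/n_1 + N/n_2 = 2`, so all poles are fixed by `G`: invariant line. `k = 3`:
`1/n_1+1/n_2+1/n_3 = 1 + 2/N`, so sorted: `(2,2,n)` with `N = 2n` (excluded: the orbit with stabiliser order
`n ≥ 2` has two elements `p, q`; a nontrivial rotation in the stabiliser of `p` also fixes `q`, and it fixes
only `±p`, so `q = -p`: invariant line), `(2,3,3)` with `N = 12`, `(2,3,4)` with `N = 24`, `(2,3,5)` with
`N = 60`. -/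
def S_POLE : Prop := ∀ G : Subgroup LI, Finite G → (∀ g ∈ G, dt g = 1) → Irr G →
  Nat.card G = 12 ∨
  (Nat.card G = 24 ∧ ∃ p : E, ‖p‖ = 1 ∧ Nat.card {g : LI // g ∈ G ∧ g p = p} = 4) ∨
  (Nat.card G = 60 ∧ ∃ p : E, ‖p‖ = 1 ∧ Nat.card {g : LI // g ∈ G ∧ g p = p} = 5)

/-- GAM. Proof: `Γ = {g : dt g = 1 ∧ (g ∈ G ∨ -g ∈ G)}` (`dt (-g) = -dt g` in dimension 3, `dt g = ±1`). Since
`-1 ∉ G`, `g ↦ (dt g) g` is a bijection (an injective hom) from `G` onto `Γ`. The lines invariant under `g` and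
`-g` are the same, so `Irr Γ`. -/
def S_GAM : Prop := ∀ G : Subgroup LI, Finite G → Irr G → negI ∉ G →
  ∃ Γ : Subgroup LI, Finite Γ ∧ (∀ g ∈ Γ, dt g = 1) ∧ Irr Γ ∧ Nat.card Γ = Nat.card G ∧
    ∀ g : LI, g ∈ Γ ↔ dt g = 1 ∧ (g ∈ G ∨ negI * g ∈ G)

/-- CYC. A finite group of rotations about the unit vector `p` contains the rotation by `2π/|C|`. Proof: choose
`β` with `β e_2 = p`; every `g ∈ C` is `rotE θ` in the frame `β`; `g ↦ e^{iθ} ∈ ℂ` is an injective hom into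
`ℂˣ`; its image has `m = |C|` elements, all `m`-th roots of unity, so it contains `e^{2πi/m}`. -/
def S_CYC : Prop := ∀ (C : Subgroup LI) (p : E), Finite C → ‖p‖ = 1 →
  (∀ g ∈ C, dt g = 1 ∧ g p = p) → ∃ β : LI, β e2 = p ∧ HasB C β (rotE (2 * π / (Nat.card C : ℕ)))

/-- T7. Proof from POLE (and GAM): let `Γ = {g ∈ O(3) : dt g = 1, g ∈ G or -g ∈ G}`. Since `-1 ∉ G`, `g ↦ (dt g) g` is an
injective group hom from `G` onto `Γ` (in dimension 3, `dt (-g) = -dt g`); `Γ` is a finite rotation group,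
`Irr Γ` (the lines invariant under `g` and `-g` are the same). Apply POLE. -/
def S_T7 : Prop := ∀ G : Subgroup LI, Finite G → Irr G → negI ∉ G →
  Nat.card G = 12 ∨ Nat.card G = 24 ∨ Nat.card G = 60

/-- T8 (order 24). Proof. `Γ` as in T7, `|Γ| = 24`, `p` a unit pole whose stabiliser `C` in `Γ` has order 4;
`C` is a group of rotations about `p`, so it is cyclic, generated by the rotation `r` by 90 degrees about `p`
(finite subgroups of the circle are cyclic of the roots of unity). The orbit `O` of `p` has 6 elements; `C`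
acts on `O`, elements other than `±p` have `C`-orbits of size exactly 4; `6 = f + 4k` with `f ∈ {1,2}`, so
`f = 2`: `-p ∈ O` and `O = {p,-p,q,rq,r²q,r³q}`. As `-p ∈ O`, `O = -O`, so `-q = r^k q` for some `k`, and the
`p`-component gives `<q,p> = -<q,p> = 0`. So `p, q, r q` is an orthonormal frame and `O = {±p,±q,±rq}`. `Γ`
preserves `O`, so in the frame it consists of signed permutation matrices of determinant 1; there are 24 of
these, so `Γ` contains all of them. An element `γ ∈ Γ` of odd order `m` lies in `G` (else `-γ ∈ G` and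
`(-γ)^m = -1 ∈ G`). So the cyclic permutations (order 3) lie in `G`, also those with signs, e.g.
`c(v) = (v1,v2,v0)` and `c'(v) = (-v1,-v2, v0)` hence `c' c⁻¹ = diag(-1,-1,1)` and its conjugates such as
`dE = diag(1,-1,-1)` lie in `G`. Finally `qE ∈ Γ`, so `qE ∈ G`, or `-qE ∈ G`; `-qE (v) = (v1,-v0,-v2)` and
`-qE` composed with `diag(1,-1,-1)` is the swap `swE`. Choose `β` mapping the standard basis to the frame. -/
def S_T8 : Prop := ∀ G : Subgroup LI, Finite G → Irr G → negI ∉ G → Nat.card G = 24 →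
  ∃ β : LI, HasB G β cycE ∧ HasB G β dE ∧ (HasB G β qE ∨ HasB G β swE)

/-- T860 (order 60). Proof. `Γ` as in T7, `|Γ| = 60`, `p` a unit pole with stabiliser `C` of order 5: rotations
about `p`, cyclic, generated by the rotation `r` by 72 degrees. `r` has odd order so `r ∈ G` (see T8).
`‖r v - v‖² = (2 - 2cos 72°)(‖v‖² - <v,p>²)` and `2 - 2cos 72° = (5-√5)/2 = 1.3820 ≤ 1.39`; `r v = v` only on
the axis. The orbit `O` of `p` under `Γ` has 12 elements, `C` acts on it, the fixed points can only be `±p`,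
other orbits have size 5; `12 ≡ 2 (mod 5)`, so `-p ∈ O`: `γ p = -p` for some `γ ∈ Γ`. It remains to show
`G = Γ` (i.e. `dt g = 1` for all `g ∈ G`). Let `G⁺ = {g ∈ G : dt g = 1}`, of index 1 or 2 in `G`. `G⁺`
contains all odd order elements of `Γ`, in particular 5-fold rotations about `p` and about some `p' = γ'p`
not parallel to `p`; a line invariant under a rotation of order 5 is its axis, so `G⁺` has no invariant line
and POLE gives `|G⁺| ∈ {12,24,60}`; index 2 would give 30. So `G⁺ = G`. -/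
def S_T860 : Prop := ∀ G : Subgroup LI, Finite G → Irr G → negI ∉ G → Nat.card G = 60 →
  ∃ p : E, ‖p‖ = 1 ∧ (∃ h ∈ G, h p = -p) ∧
    ∃ ro ∈ G, (∀ v : E, ‖ro v - v‖ ^ 2 ≤ 1.39 * (‖v‖ ^ 2 - (inner ℝ v p) ^ 2)) ∧
      ∀ v : E, ro v = v → ∃ t : ℝ, v = t • p

/-- G1 (finite groups with an invariant line). Proof. Let `a` be a unit vector with `g a = ±a` for all
`g ∈ G`; `A = {g ∈ G : g a = a, dt g = 1}` consists of rotations about `a`; it embeds into the circle, so it is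
cyclic of order `n`, generated by the rotation by `2π/n`. `A` is the kernel of the hom
`G → {±1} × {±1}`, `g ↦ (sign on a, dt g)`; the image has order `j ∈ {1,2,4}`, `|G| = n j`. If `j = 4`: there is
`m ∈ G` with `m a = a`, `dt m = -1`: a reflection in a plane through `a`; let `β` map `e_2` to `a`, `e_0` to a
unit vector of `a^⊥` fixed by `m` (so `m (β v) = β (mirE v)`). There is `w ∈ G` with `w a = -a`, `dt w = -1`: on
`a^⊥` it is a rotation by some `θ`, so it is `rrE θ` in the frame; `w² ∈ A`, so `2θ ∈ (2π/n)ℤ`, `θ = πk/n`;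
multiplying by powers of the rotation by `2π/n` we get `rrE 0` (`k` even) or `rrE (π/n)` (`k` odd). -/
def S_G1 : Prop := ∀ G : Subgroup LI, Finite G → ¬ Irr G →
  ∃ (β : LI) (n : ℕ), 1 ≤ n ∧ HasB G β (rotE (2 * π / n)) ∧
    (Nat.card G = n ∨ Nat.card G = 2 * n ∨
      (Nat.card G = 4 * n ∧ HasB G β mirE ∧ (HasB G β (rrE 0) ∨ HasB G β (rrE (π / n)))))

/-- LP (Lemma P). Proof: take `φ` with `Eqv X 0 v ρ φ`. The vectors `p - v`, `q - v` have norm `≤ ρ`, so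
`φ⁻¹(p-v), φ⁻¹(q-v) ∈ X`. If one of them is `Off`, we get `d ≤ ‖p-v‖`. Otherwise both are on the third axis with
the same norm, so they are equal (`p = q`, excluded) or opposite: `p + q = 2v`, impossible for
`‖p‖ = ‖q‖ = ‖v‖`, `p ≠ q` (parallelogram law). -/
def S_LP : Prop := ∀ (X : Set E) (ρ d : ℝ), Nn X ρ → (0 : E) ∈ X →
  (∀ v ∈ X, ‖v‖ ≤ ρ → Off v → d ≤ ‖v‖) →
  ∀ v p q : E, v ∈ X → p ∈ X → q ∈ X → ‖p‖ = ‖v‖ → ‖q‖ = ‖v‖ → ‖p - v‖ = ‖q - v‖ → ‖p - v‖ ≤ ρ →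
    p ≠ q → d ≤ ‖p - v‖

/-- T5a (Stogrin). Proof: let `v` be an `Off` vector of `X` of minimal norm `d ≤ ρ` (FINK). With the rotation
`R` by `θ = 2π/n`, `p = R v`, `q = R⁻¹ v` (`R⁻¹ = R^(n-1)` preserves the cluster) lie in `X`,
`‖p-v‖ = ‖q-v‖ = 2 sin(π/n) √(v0²+v1²) ≤ 2 sin(π/7) d < d`, `p ≠ q` as `n ≥ 3` (n ≥ 7) and `v` is `Off`. This
contradicts LP. -/
def S_T5a : Prop := ∀ (r : ℝ) (X : Set E) (ρ : ℝ) (n : ℕ), Del r X → Nn X ρ → (0 : E) ∈ X → 7 ≤ n →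
  Sym X ρ (rotE (2 * π / n)) → (∃ v ∈ X, ‖v‖ ≤ ρ ∧ Off v) → False

/-- T5b. Proof: `v` as in T5a (norm `d`), `g = rrE (π/6)`. `g²` is the rotation by 60 degrees, so
LP for `p = g²v, q = g⁻²v` gives `v0²+v1² = ‖g²v - v‖² ≥ d² = ‖v‖²`, so `v2 = 0`. Then
`‖g v - v‖² = (2-√3)(v0²+v1²) < d²`, while LP for `p = g v`, `q = g⁻¹ v` gives `≥ d²`. -/
def S_T5b : Prop := ∀ (r : ℝ) (X : Set E) (ρ : ℝ), Del r X → Nn X ρ → (0 : E) ∈ X →
  Sym X ρ (rrE (π / 6)) → (∃ v ∈ X, ‖v‖ ≤ ρ ∧ Off v) → False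

/-- T5c. Proof: LP for `p = g v, q = g⁻¹ v`, `g = rrE (π/4)`:
`‖g v - v‖² = (2-√2)(v0²+v1²) + 4 v2²`, and for `g²` (rotation by 90 degrees):
`‖g²v - v‖² = 2(v0²+v1²)`. (If the norm is `> ρ ≥ d` there is nothing to prove.) -/
def S_T5c : Prop := ∀ (X : Set E) (ρ d : ℝ), Nn X ρ → (0 : E) ∈ X → 0 ≤ d → d ≤ ρ →
  Sym X ρ (rrE (π / 4)) → (∀ v ∈ X, ‖v‖ ≤ ρ → Off v → d ≤ ‖v‖) →
  ∀ v ∈ X, ‖v‖ ≤ ρ → Off v →
    d ^ 2 ≤ (2 - √2) * (v 0 ^ 2 + v 1 ^ 2) + 4 * v 2 ^ 2 ∧ d ^ 2 ≤ 2 * (v 0 ^ 2 + v 1 ^ 2)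

/-- B8. Proof: let `y = (ϱ e^{iθ}, h)` be an `Off` vector of `X` of minimal norm `d ≤ 0.2` (FINK; coordinates
`ℂ × ℝ`). T5c: `2ϱ² ≥ d²` and `(2-√2)ϱ²+4h² ≥ d² = ϱ²+h²`, so `3h² ≥ (√2-1)ϱ²`, `h² ≥ 0.121 d²`, `|h| ≥ 0.348 d`.
Let `b = (w, η)` be a lens partner of `0`, `W = |w|`, `W² + η² = L²`. The orbit of `y` under `rrE (π/4)` consists
of the four points with azimuth `θ + k 90°` and height `h` and the four with azimuth `θ+45°+k 90°` and height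
`-h`; all have norm `d < L`, so each `z` of them has `‖z-b‖ ≥ L`, i.e. `<z,b> ≤ d²/2`. Choose the height sign so
that the height contribution is `+|h||η|`, and among the four azimuths one within 45 degrees of `w`:
`ϱ W/√2 + |h||η| ≤ d²/2`. As `√2 ϱ ≥ d` and `2|h| ≥ 0.69 d`: `W + 0.69|η| ≤ d`, so
`L ≤ W + |η| ≤ d + d/0.69 ≤ 0.5`, contradiction. -/
def S_B8 : Prop := ∀ (r : ℝ) (X : Set E) (L : ℝ), Del r X → Nn X 1.8 → (0 : E) ∈ X →
  Sym X 1.8 (rrE (π / 4)) → Lens X L → 1.9 ≤ L → (∃ v ∈ X, ‖v‖ ≤ 0.2 ∧ Off v) → False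

/-- T12 (packing versus covering). Proof. Suppose `s > 1.64`, so `s² > 2.6896`, and let `f(q) = dist(q, X) ≤ 1`,
`M = sup f`. Fix a small `η > 0` (e.g. `η = 10⁻⁶`) and `q` with `f(q)² ≥ M² - η`. Let `τ = 2√η`. For every unit
vector `e` there is `y ∈ X` with `‖y - (q + τ e)‖² ≤ M² + η` (nearest or almost nearest point of `X`; `X ∩ ball`
is finite); with `u = y - q`: `‖u‖² - 2τ<u,e> + τ² ≤ M²+η` and `‖u‖² ≥ M² - η`, so
`2τ<u,e> ≥ τ² - 2η = 2η > 0`; also `‖u‖ ≤ √(1+η) + τ`, so `‖u‖² ≤ 1.005`. The set `U` of all `u ∈ X - q` with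
`‖u‖² ≤ 1.005` is finite and for every unit `e` some `u ∈ U` has `<u,e> > 0`. Hence `|U| ≥ 4`: given at most
three vectors in 3-space there is a unit `e` with `<u_i,e> ≤ 0` for all of them (if they are linearly
dependent take `e` orthogonal to all; if three independent vectors, solve `<u_i,e> = -1` and normalise).
Take four different `u_1,..,u_4 ∈ U`: `6 s² ≤ ∑_{i<j} ‖u_i-u_j‖² = 4∑‖u_i‖² - ‖∑u_i‖² ≤ 16·1.005`, so
`s² ≤ 2.68`, contradiction. (`M = sup` can be avoided: if no such `q` exists one could increase `f²` by a fixed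
amount infinitely often.) -/
def S_T12 : Prop := ∀ (r : ℝ) (X : Set E) (s : ℝ), Del r X → 0 < s →
  (∀ x ∈ X, ∀ y ∈ X, x ≠ y → s ≤ ‖y - x‖) → s ≤ 1.64

/-- T13. Proof. Let `x, z` be the pair with `‖z-x‖ = ρ`, `2x - z ∉ X`; `m` the midpoint.
(1) The open ball with diameter `xz` contains no `y ∈ X`: otherwise `‖y-m‖ < ρ/2`, hence `‖y-x‖, ‖y-z‖ < ρ`; so
`p = 2y - z ∈ X`, `w = 2x - y ∈ X`, `‖p-x‖ = 2‖y-m‖ < ρ` so `q = 2x - p ∈ X`, `‖q-w‖ = ‖z-y‖ < ρ` so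
`2w - q = 2x - z ∈ X`, contradiction. So `‖y-m‖ ≥ ρ/2` for all `y ∈ X`.
(2) Let `t = √(1-ρ²/4)` (`0 ≤ t`), `C` the circle `{q : ‖q-m‖ = t, q-m ⊥ z-x}`. For every `q ∈ C` (for `t = 0`:
`q = m`) there is `u ∈ X`, `u ≠ x,z` with `‖u-q‖ ≤ 1`: move `q` slightly outwards (`m+(1+1/n)(q-m)`, for `t = 0`
`m + θ/n` with a fixed unit `θ ⊥ z-x`), then `x`, `z` are at distance `> 1` and covering gives such a `u`; finitely
many candidates, limit.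
(3) `t = 0` (`ρ = 2`): `‖u-m‖ ≤ 1 = ρ/2`, so `‖u-m‖ = 1` by (1), and Thales: `‖u-x‖²+‖u-z‖² = 4`, so `2s² ≤ 4`,
contradiction with `s ≥ 1.595`. So `t > 0`.
(4) No single `u` works for all `q ∈ C`: for opposite `q, q'`, `‖u-q‖²+‖u-q'‖² = 2‖u-m‖²+2t² ≤ 2` gives
`‖u-m‖² ≤ ρ²/4`, so equality with (1), and `‖u-q‖ = 1` for all `q ∈ C`, so `<u-m,q-m> = 0` for all `q ∈ C`, so
`u-m` is parallel to `z-x` with norm `ρ/2`: `u = x` or `u = z`, contradiction. The circle is connected and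
covered by the finitely many closed sets `{q ∈ C : ‖u-q‖ ≤ 1}`, `u ∈ X \ {x,z}`, none of which is everything, so
some `q ∈ C` lies in two of them: `u_1 ≠ u_2`. (Alternatively take `q` at the end of an arc.)
(5) With origin `q`: `x, z` have norm 1, `Y = x+z` has norm `2t`, `‖u_i‖ ≤ 1`. With `δ = s²-2 > 0`:
`<x,u_i>, <z,u_i>, <u_1,u_2> ≤ (1+1-s²)/2 = -δ/2`. So `W = u_1+u_2` has `‖W‖² ≤ 2 - δ`, `<Y,W> ≤ -2δ`, so
`2δ ≤ 2t√(2-δ)`: `t² ≥ δ²/(2-δ)`, `ρ² = 4(1-t²) ≤ 4(1-δ²/(2-δ))`.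
(6) `s ≥ 1.595`: `δ ≥ 0.544`, `t² ≥ 0.2032`, `ρ ≤ 1.7854`. And `s < ρ` gives with `y = s²`:
`y(4-y) < 4(4-y) - 4(y-2)²`, i.e. `3y² < 8y`, `s² < 8/3`, `5s < 8.165`. So `ρ + 5s ≤ 9.951`. -/
def S_T13 : Prop := ∀ (r : ℝ) (X : Set E) (s ρ : ℝ), Del r X →
  (∀ x ∈ X, ∀ y ∈ X, x ≠ y → s ≤ ‖y - x‖) → 1.595 ≤ s → s < ρ → ρ ≤ 2 →
  (∀ x ∈ X, ∀ z ∈ X, ‖z - x‖ < ρ → (2 : ℝ) • x - z ∈ X) →
  (∃ x ∈ X, ∃ z ∈ X, ‖z - x‖ = ρ ∧ (2 : ℝ) • x - z ∉ X) → ρ + 5 * s ≤ 9.96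

/-- C60. Proof from T860 and T9. Let `G = Aut X x 2`, `p, h, ro` from T860, `b` a lens partner of `x`
(`β = b - x`, `‖β‖ = L`), `v` with `x+v ∈ X`, `‖v‖ = s` (MinD.att). T9 (second part, `u = v/s`, `b = p`): some
`g ∈ G` has `<v, g p>² ≥ s²/3`. Put `w = g⁻¹ v`: `x+w ∈ X`, `‖w‖ = s`, `<w,p>² ≥ s²/3`, so
`‖ro w - w‖² ≤ 1.39·(2/3) s² < s²`, and `x + ro w, x + w ∈ X`, so `ro w = w` (MinD.le), `w = t p`, and
`h w = -w`: `x - w ∈ X`. For every `g ∈ G`: `x + g(±w) ∈ X` has distance `s < L` from `x`, so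
`‖±g w - β‖ ≥ L`, i.e. `±<g w, β> ≤ s²/2`, `<gw,β>² ≤ s⁴/4`. But T9 gives `g` with
`<β/L, g(w/s)>² ≥ 1/3`, i.e. `<gw,β>² ≥ s²L²/3 > s⁴/4`, as `s < L`. Contradiction. -/
def S_C60 : Prop := ∀ (X : Set E) (s L : ℝ) (x : E), x ∈ X → MinD X s → Lens X L → s < L → L ≤ 2 →
  Finite (Aut X x 2) → Irr (Aut X x 2) → negI ∉ Aut X x 2 → Nat.card (Aut X x 2) = 60 → False

/-- CO (octahedral rotation group). Proof. `cycE, dE, qE` generate the 24 signed permutation matrices of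
determinant 1, all of which preserve the 2-cluster at `0`. Let `v ∈ X`, `‖v‖ = s`, `b` a lens partner of `0`,
`‖b‖ = L`. For each of the 24 maps `g`: `g v ∈ X` has norm `s < L`, so `‖g v - b‖ ≥ L`, i.e.
`t_g = <g v, b> ≤ s²/2`. Polynomial identities over the 24 maps: `∑ t_g = 0`, `∑ t_g² = 8 s² L²`, `∑ t_g³ = 0`. With
`a = sL/√3`: `∑ (t_g - a)(t_g + a)² = ∑ t³ + a∑t² - a²∑t - 24a³ = 8a(s²L² - 3a²) = 0`. As `s < L`,
`t_g ≤ s²/2 < a`, so every term is `≤ 0`, hence `= 0`, so all `t_g = -a`, contradicting `∑ t_g = 0`. -/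
def S_CO : Prop := ∀ (X : Set E) (s L : ℝ), (0 : E) ∈ X → Sym X 2 cycE → Sym X 2 dE → Sym X 2 qE →
  MinD X s → Lens X L → L ≤ 2 → s < L → False

/-- CT1a (tetrahedral case, nearest points and lens partners). Proof.
`cycE, dE, swE` generate all permutations of the coordinates combined with an even number of sign changes (24
maps, the group `T_d`), all preserve the 2-cluster of `X` at `0`.
(1) Let `v ∈ X`, `‖v‖ = s`. For `i ≠ j` the images of `v` under the swap of coordinates `i,j`, resp. the swap with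
both signs changed, lie in `X`, so `√2|v_i - v_j|` and `√2|v_i + v_j|` are each `0` or `≥ s`. Sorting
`A ≥ B ≥ C ≥ 0` the absolute values: `A - B, B - C, A+B, B+C ∈ {0} ∪ [s/√2, ∞)`, `A²+B²+C² = s²`. If
`A ≥ B + s/√2` then `B ≤ 0.26 s`, `B+C < s/√2`, so `B = C = 0`. If `A = B`, `B ≥ C + s/√2` then `A = B = s/√2`,
`C = 0`. Otherwise `A = B = C`. In the first two cases a suitable even sign change maps `v` to `-v`.
(2) Let `b` be a lens partner of `0`. For each of the 24 maps `g`: `<g v, b> ≤ s²/2` (as `‖g v‖ = s < L`).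
If `v = (±s,0,0)` (or permuted): all `|b_i| ≤ s/2`, `L² ≤ 3s²/4`, contradiction. If `v = (±1,±1,0)s/√2`
(permuted): `|b_i|+|b_j| ≤ s/√2` for `i ≠ j`, which gives `L² = ∑b_i² ≤ s²/2`, contradiction. So `v = ± s tv i`
for some `i`, and all `v ∈ X` of norm `s` are of this type; if both `s tv i` and `-s tv j` occur then by
symmetry all `±s tv i ∈ X`, `|<tv i, b>| ≤ s/2`, `∑_i <tv i,b>² = (4/3)L² ≤ s²`, contradiction. So there is
`ε = ±1` such that the vectors of norm `s` in `X` are exactly the `-(ε s) tv i`.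
(3) Put `t_i = <b, ε tv i>/L`: `∑ t_i = 0`, `∑ t_i² = 4/3`, `|t_i| ≤ 1`, and `t_i ≥ -M` with `M = s/(2L) < 1/2`.
`0 ≤ ∑ (t_i + M)(1 - t_i) = -4/3 + 4M`, so `M ≥ 1/3`: `2L/3 ≤ s`.
(4) For `i ≠ j` the reflection exchanging `tv i` and `tv j` is one of the 24 maps, it moves `b` by
`L√(3/2)|t_i-t_j|`, so this is `0` or `≥ s = 2ML`: `|t_i - t_j| ∈ {0} ∪ [2M√(2/3), ∞)`, `2√(2/3) ≥ 1.632`. Sort
`t_1 ≥ t_2 ≥ t_3 ≥ t_4 ≥ -M`. If `t_2 > t_4` then `t_2 ≥ 0.632M`, `t_1+t_2 = -t_3-t_4 ≤ 2M`, `t_1 ≤ 1.368M`,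
`t_1²+t_2² ≤ (1.368²+0.632²)M² ≤ 2.272M²`, `t_3², t_4² ≤ M²`, total `≤ 4.272M² < 1.07 < 4/3`, contradiction.
So `t_2 = t_3 = t_4 = -1/3`, `t_1 = 1`: `b = (ε L) tv i` for some `i`. By symmetry all `(εL) tv i ∈ X` and they
are lens partners of `0`. -/
def S_CT1a : Prop := ∀ (X : Set E) (s L : ℝ), (0 : E) ∈ X → Sym X 2 cycE → Sym X 2 dE → Sym X 2 swE →
  MinD X s → Lens X L → L ≤ 2 → s < L →
  ∃ ε : ℝ, (ε = 1 ∨ ε = -1) ∧ 2 * L / 3 ≤ s ∧ (∀ i, -((ε * s) • tv i) ∈ X) ∧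
    (∀ i, (ε * L) • tv i ∈ X) ∧ (∀ i, ∀ z ∈ X, ‖z‖ < L → L ≤ ‖z - (ε * L) • tv i‖)

/-- CT1b (tetrahedral case, no other points within `L`). Proof. Let `w ∈ X`, `0 < ‖w‖ < L`, and suppose that `w`
is none of the `-(εs) tv i`. Put `τ_i = <w, ε tv i>/‖w‖`: `∑ τ_i = 0`, `∑ τ_i² = 4/3`. Lens:
`‖w - εL tv i‖ ≥ L` gives `τ_i ≤ ‖w‖/(2L) < 1/2`. `MinD`: `‖w + εs tv i‖ ≥ s` gives
`τ_i ≥ -‖w‖/(2s) > -L/(2s) ≥ -3/4`. As in CT1a (4) for `w`: `‖w‖√(3/2)|τ_i-τ_j|` is `0` or `≥ s`, so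
`|τ_i-τ_j|` is `0` or `≥ (s/‖w‖)√(2/3) ≥ (2/3)·0.816 ≥ 0.544`. Sort `τ_1 ≥ τ_2 ≥ τ_3 ≥ τ_4`; as
`τ_1 - τ_4 < 1.25`, at most two of the three gaps are nonzero. One nonzero gap: `(a,a,a,b)`: `b = -1 < -3/4`;
`(a,b,b,b)`: `a = 1`; `(a,a,b,b)`: `a = 1/√3 > 1/2`; all impossible. No gap: all 0, impossible. Two gaps,
`a > b > c` with `a < 1/2`, `b ≤ a - 0.544 < -0.04`, `c ≤ b - 0.544 < -0.58`: `(a,b,c,c)` and `(a,b,b,c)` have
negative sum; `(a,a,b,c)`: `2a + b + c = 0`, `c > -3/4`, `b - c ≥ 0.544`, so `-2a - 2c ≥ 0.544`,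
`a ≤ 0.75 - 0.272 = 0.478`, and `4a ≥ 3·0.544`, `a ≥ 0.408`; the sum of squares is `6a²+4ac+2c²`, decreasing in
`c` for `c < -a`, so `≤ 6a² - 3a + 1.125 ≤ 1.07 < 4/3`. Contradiction. -/
def S_CT1b : Prop := ∀ (X : Set E) (s L ε : ℝ), (0 : E) ∈ X → Sym X 2 cycE → Sym X 2 dE → Sym X 2 swE →
  MinD X s → L ≤ 2 → s < L → (ε = 1 ∨ ε = -1) → 2 * L / 3 ≤ s → (∀ i, -((ε * s) • tv i) ∈ X) →
    (∀ i, (ε * L) • tv i ∈ X) → (∀ i, ∀ z ∈ X, ‖z‖ < L → L ≤ ‖z - (ε * L) • tv i‖) →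
    ∀ w ∈ X, w ≠ 0 → ‖w‖ < L → ∃ i, w = -((ε * s) • tv i)

/-- CT2 (tetrahedral case, contradiction). Write `u^x` for the tetrahedron at `x`, `σ = s/L ∈ [2/3, 1)`.
(0) Two points of `X` at distance `< L` are equal or at distance exactly `s` (`only`), and if `p ≠ p'` are both at
distance `s` from `q` then `‖p-p'‖ = s√(8/3)` (two neighbours of `q`).
(1) Let `y = x - s n`, `n = u^x_j`. As `x` is a neighbour of `y`, `u^y_l = -n` for some `l`. For the three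
`k ≠ j`: `u^x_k = -n/3 + (√8/3) c_k`, `c_k` unit, `⊥ n`, `<c_k,c_k'> = -1/2`; for the three other indices at `y`:
`u^y_m = n/3 + (√8/3) c'_m`, same. `b_k = x + L u^x_k`, `b'_m = y + L u^y_m`, `y_m = y - s u^y_m`.
(2) Fix `k`; `T_m = <c_k, c'_m>` satisfy `∑T_m = 0`, `∑T_m² = 3/2`, so `∑(T_m+1)(T_m-1/2) = 0` and some
`C = T_m ≥ 1/2`. `‖b_k - b'_m‖² = (s-2L/3)² + (16/9)L²(1-C) ≤ (s-2L/3)² + (8/9)L² < L²` (as `s < L`), so it is `0`
or `s²`: either `s = 2L/3` and `C = 1`, or `C = (5-3σ)/4 ∈ (1/2, 3/4]`.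
(3) For all `m`: `‖b_k - y_m‖ ≥ L`. Otherwise it is `0` or `s`. `‖b_k - y‖² = L²+s²-(2/3)sL ≥ L²` (as
`s ≥ 2L/3`). If `b_k = y_m` then `‖b_k-y‖ = s < L`, contradiction. If `‖b_k-y_m‖ = s` then `y` and `b_k` are
neighbours of `y_m` (different by the previous line), so `(8/3)s² = L²+s²-(2/3)sL`, `(5σ-3)(σ+1) = 0`, `σ = 3/5`,
contradiction. As `‖b_k-y_m‖² = ((4s-L)/3)² + (8/9)(L²+s²+2sL T_m) ≥ L²`: `T_m ≥ -(3σ-1)/2` for all `m`.
(4) The second case of (2) is impossible: `3σ = 5-4C`, `(3σ-1)/2 = 2-2C`, the two other values `T', T''` satisfy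
`T'+T'' = -C`, `T'T'' = C²-3/4`, both `≥ 2C-2`, so `0 ≤ (T'-(2C-2))(T''-(2C-2)) = 7C²-10C+13/4`, whose roots are
`1/2` and `13/14`: contradiction for `1/2 < C ≤ 3/4`.
(5) So `s = 2L/3`, and for every bond and every `k ≠ j` some `m` has `c'_m = c_k`, i.e.
`u^y_m = u^x_k + (2/3) u^x_j`. Take `x ∈ X`, `u_1 = u^x_1, u_2 = u^x_2`. The bond `x → x - s u_1` with `k = 2` gives
the point `P = x - s u_1 - s(u_2 + (2/3)u_1) ∈ X`; the bond `x → x - s u_2` with `k = 1` gives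
`Q = x - s u_2 - s(u_1 + (2/3)u_2) ∈ X`. `‖P-Q‖ = (2/3)s‖u_1-u_2‖ = (2/3)√(8/3) s = 1.0887 s`, which is `< L = 1.5 s`,
not `0` and not `s`: contradiction with (0). -/
def S_CT2 : Prop := ∀ (X : Set E) (s L : ℝ), X.Nonempty → 0 < s → s < L → 2 * L / 3 ≤ s →
  (∀ x ∈ X, ∃ u : Fin 4 → E, TetAt X s L x u) → False

/-- D4a. Proof. For `x ∈ X` let `φ_x` be an equivalence `Eqv X 0 x 9 φ_x`, `a_x = φ_x e_2` (axis at `x`). For
`x ∈ X` and `w` with `‖w‖ ≤ 2`, `x+w ∈ X`, `w` not parallel to `a_x`: `‖w‖ ≥ d` (transport of `dle`). Suppose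
`d > L`. Then `y ∈ X`, `‖y-x‖ ≤ L` implies `y - x ∥ a_x`, and by symmetry `y - x ∥ a_y`; so `y ≠ x` implies
`a_y = ±a_x`. By `Conn X L` all points of `X` lie on the line `ℝ e_2` through `0` (induction along a chain:
all axes are `±e_2`), contradicting `datt`. -/
def S_D4a : Prop := ∀ (r : ℝ) (X : Set E) (L d : ℝ), D4H r X L d → d ≤ L

/-- D4b1: items (1)-(3) of the proof in the docstring of S_D4b. `X'` is `X` in a turned (possibly reflected)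
frame: `X' = {v | β v ∈ X}` with `β` a power of `rrE (π/4)`, possibly composed with `v ↦ (v0,v1,-v2)`. -/
def S_D4b1 : Prop := ∀ (r : ℝ) (X : Set E) (L d : ℝ), D4H r X L d → d < L →
  ∃ X' : Set E, D4H r X' L d ∧ MinD X' d ∧ d ≤ 1.64 ∧ ∃ ϱ h : ℝ, 0 < ϱ ∧ 0 < h ∧ 2 * h < d ∧
    ϱ ^ 2 + h ^ 2 = d ^ 2 ∧
    ∀ v : E, (v ∈ X' ∧ ‖v‖ = d) ↔
      ∃ k : ℕ, v = !₂[ϱ * Real.cos (k * (π / 4)), ϱ * Real.sin (k * (π / 4)), (-1) ^ k * h]

/-- D4b2: items (4)-(6) of the proof in the docstring of S_D4b. -/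
def S_D4b2 : Prop := ∀ (r : ℝ) (X : Set E) (L d ϱ h : ℝ), D4H r X L d → MinD X d → d ≤ 1.64 →
  0 < ϱ → 0 < h → 2 * h < d → ϱ ^ 2 + h ^ 2 = d ^ 2 →
  (∀ v : E, (v ∈ X ∧ ‖v‖ = d) ↔
      ∃ k : ℕ, v = !₂[ϱ * Real.cos (k * (π / 4)), ϱ * Real.sin (k * (π / 4)), (-1) ^ k * h]) → False

/-- D4b (follows from D4b1 and D4b2). Notation: coordinates `ℂ × ℝ`, `v = (z,h)`; `x ∈ X` has a frame `φ_x` (`Eqv X 0 x 9 φ_x`), axis
`a_x = φ_x e_2`. The symmetries `rrE (π/4)` and `mirE` generate the group `G` of order 16: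
`(i^k z, h), (i^k z̄, h), (e^{iπ/4} i^k z, -h), (e^{iπ/4} i^k z̄, -h)`.
Suppose `d < L`. By T5c (with `ρ = 2`) every `Off` vector `(z,h) ∈ X` of norm `≤ 2` has
`(2-√2)|z|²+4h² ≥ d²` and `2|z|² ≥ d²`; for norm `d`: `h² ≤ |z|²` and `3h² ≥ (√2-1)|z|²`, so
`0.121 d² ≤ h² ≤ d²/2`.
(1) A lens partner `b = (w,η)` of `0` is on the axis. Otherwise `W = |w| > 0`; let `y = (ϱ e^{iθ},h) ∈ X` be `Off`
with norm `d`; all `g y`, `g ∈ G`, satisfy `<g y, b> ≤ d²/2`; choose the sign of the height and an azimuth within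
45 degrees: `ϱW/√2 + |h||η| ≤ d²/2`. `√2 ϱ ≥ d`, `2|h| ≥ 0.69 d`: `W ≤ d - 0.69|η|`. `W²+η² = L² > d²` gives
`|η|(1.4761|η| - 1.38 d) > 0`, `|η| > 0.934 d`, `W < 0.36 d`, contradicting `2W² ≥ d²`.
So `b = ±L e_2`, and both `±L e_2` are lens partners (symmetry).
(2) There is no `τ e_2 ∈ X` with `0 < |τ| < L` (lens). So the minimal distance is `s = d` (`Off` vectors have
norm `≥ d`, `d < L`). By T12 `s ≤ 1.64`. Every `v = (z,h) ∈ X` with `‖v‖ < L` has `2L|h| ≤ ‖v‖²` (lens with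
`±L e_2`). So for norm `s`: `|h| ≤ s²/(2L) < s/2`.
(3) The vectors of norm `s`. Let `v = (ϱe^{iθ},h)` be one. Its images under the two neighbouring mirror planes
(azimuth multiples of 45°) are at distance `2ϱ sin ψ`, `2ϱ sin(45°-ψ)`, where `ψ ∈ [0,45°]` is the angle to one of
the planes; both are `0` or `≥ s ≥ ϱ`; both `ψ, 45° - ψ ≥ 30°` is impossible, so `v` lies on a mirror plane.
`h ≠ 0`. Turning the frame by 45° if necessary (or applying `rrE (π/4)`) we may take `v = y = (ϱ,h)`, `ϱ > 0` real,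
`h ≠ 0`, and by symmetry of the argument `h > 0`. The 8 vectors `(i^kϱ,h), (e^{iπ/4}i^kϱ,-h)` are all the vectors
of norm `s`: another one `v'` would lie in the half plane of one of them and the elevation angles lie in
`(±)[20.3°,30°)`, so the angle between them is `< 60°`, distance `< s`. Call this set `N`, and `N_x = φ_x N` at
`x ∈ X` (crown around the axis `a_x`).
(4) Let `Y = y ∈ X` (as a point). `-y ∈ N_Y`. In the crown `N_Y` the vector `-y` has exactly two vectors `w_±` at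
distance `e`, `e² = (2-√2)ϱ²+4h²` (rotoreflection by ±45° about `a_Y`), the other distances² are
`2ϱ², (2+√2)ϱ²+4h², 4ϱ²`, all larger (as `h < s/2` gives `h² < ϱ²/3`, `4h² < √2ϱ²`). `e² < 1.4393 s² < 4`. So
`Y + w_±` are points of `X` at distance `e < 2` from `0`. The mirror `σ = mirE` fixes `0` and `Y = y = (ϱ,0,h)`, so
`Y + σ w_± ∈ X`, `σ w_± ∈ N_Y` at distance `e` from `-y`; so `σ` permutes `{w_+, w_-}`. It does not fix both:
`-y, w_+, w_-` are linearly independent but would lie in the plane `v 1 = 0`. So `σ w_+ = w_-`, and `w_+ - w_-` is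
parallel to `e_1`; in the frame of `Y`, `w_+ - w_-` is orthogonal to the axis; so `a_Y` has second coordinate
`0`. Also `|<y,a_Y>| = h` (all elements of `N_Y` have height `±h`). In the plane `v 1 = 0` this leaves
`a_Y = ±e_2` or `a_Y = ±ς e_2`, where `ς` is the reflection `v ↦ v - 2<v,y>y/s²`.
(5) `a_Y = ±e_2`: `N_Y` = orbit of `-y` under `rrE (π/4)`, contains `(e^{3iπ/4}ϱ, h)`. So
`P = y + (e^{3iπ/4}ϱ,h) ∈ X`, `Q = (iϱ,h) ∈ X`, `‖P-Q‖² = |1+e^{3iπ/4}-i|²ϱ²+h² ≤ 0.172ϱ²+h² < s²` and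
`P ≠ Q` (`h ≠ 0`): contradiction.
(6) `a_Y = ±ς e_2`: `N_Y = ς N` (both are the crown around `±ςe_2` containing `-y = ς y`). With `Q = (iϱ,h) ∈ N`:
`P = y + ς Q ∈ X`, `P - Q = y - 2<Q,y>y/s² = (1-2h²/s²) y`, which is nonzero and of norm `< s`: contradiction. -/
def S_D4b : Prop := ∀ (r : ℝ) (X : Set E) (L d : ℝ), D4H r X L d → d < L → False

/-- D4c. Notation as in D4b. Suppose `d = L` and `L² > 3`. All points of `X` within distance `< L` of `p ∈ X` lie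
on the axis line `p + ℝ a_p` (transport of `dle`). Coordinates `ℂ × ℝ`. Let `f = (e^{iπ/8},0)` (unit); by T0
there is `u ∈ X`, `0 < ‖u‖ ≤ 2`, `‖u‖² ≤ 2<u,f>`. `u` is `Off` (else `<u,f> = 0`), so `‖u‖ ≥ L > √3`, and
`<u,f> ≥ ‖u‖²/2`. `c = (e^{iπ/4} z̄, -h)` is a symmetry (half turn about `f`), `u' = c u ∈ X`,
`‖u-u'‖² = 4(‖u‖²-<u,f>²) ≤ ‖u‖²(4-‖u‖²) < 3 < L²`. Write `u = (|z|e^{i(π/8+β)}, h)`, `cos β > √3/2` so
`|β| < 30°`, `u' = (|z|e^{i(π/8-β)},-h)`. By LP (`p = g u, q = g⁻¹u`, `g = rrE(π/4)`):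
`‖gu-u‖² = ‖g⁻¹u-u‖² = (2-√2)|z|²+4h² ≥ L² > 3`; as `|z|² ≤ 4 - h²`, `h ≠ 0`. In particular `u ≠ u'`, and
`u - u'` is parallel to the axis `a_{u'}`, it has nonzero third coordinate.
Assume `β ≥ 0`. `q = g⁻¹u = (|z|e^{i(β-π/8)},-h) ∈ X` has `‖u'-q‖ = 2|z||sin(22.5°-β)| ≤ 4 sin 22.5° = 1.54 < L`
and the same height as `u'`. If `q ≠ u'`, then `q - u' ∥ a_{u'}` has third coordinate `0`, contradiction with the
previous line. If `q = u'`, then `‖u-u'‖ = ‖u - g⁻¹u‖ ≥ L`, contradiction. If `β < 0` use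
`q = g u = (|z|e^{i(3π/8+β)},-h)` instead: `‖u'-q‖ = 2|z||sin(22.5°-|β|)|`, same argument. -/
def S_D4c : Prop := ∀ (r : ℝ) (X : Set E) (L d : ℝ), D4H r X L d → d = L → L ^ 2 ≤ 3

/-- D4d1: the facts (*), (1), (2) of the proof in the docstring of S_D4d. -/
def S_D4d1 : Prop := ∀ (r : ℝ) (X : Set E) (L d : ℝ), D4H r X L d → d = L →
  (∃ t : ℝ, 0 < t ∧ t < L ∧ t • e2 ∈ X) →
  ∃ τ : ℝ, 0 < τ ∧ τ < L ∧ MinD X τ ∧
    (∀ x ∈ X, ∀ φ : LI, Eqv X 0 x 9 φ → x + τ • φ e2 ∈ X ∧ x - τ • φ e2 ∈ X ∧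
      ∀ y ∈ X, ‖y - x‖ < L → ∃ t : ℝ, y - x = t • φ e2) ∧
    (∀ x ∈ X, ∀ y ∈ X, y ≠ x → ‖y - x‖ < L → ∀ φ ψ : LI, Eqv X 0 x 9 φ → Eqv X 0 y 9 ψ →
      ψ e2 = φ e2 ∨ ψ e2 = -φ e2) ∧
    (∀ y ∈ X, ‖y‖ = L → Off y →
      (y 0 = 0 ∨ y 1 = 0 ∨ y 0 = y 1 ∨ y 0 = -(y 1)) ∧ 2 * |y 2| ≤ τ ∧
        0.121 * L ^ 2 ≤ y 2 ^ 2 ∧ y 2 ^ 2 ≤ L ^ 2 / 2)

/-- D4d2: items (3), (4), (5) of the proof in the docstring of S_D4d. -/
def S_D4d2 : Prop := ∀ (r : ℝ) (X : Set E) (L d τ : ℝ), D4H r X L d → d = L → L ^ 2 ≤ 3 →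
  0 < τ → τ < L → MinD X τ →
    (∀ x ∈ X, ∀ φ : LI, Eqv X 0 x 9 φ → x + τ • φ e2 ∈ X ∧ x - τ • φ e2 ∈ X ∧
      ∀ y ∈ X, ‖y - x‖ < L → ∃ t : ℝ, y - x = t • φ e2) →
    (∀ x ∈ X, ∀ y ∈ X, y ≠ x → ‖y - x‖ < L → ∀ φ ψ : LI, Eqv X 0 x 9 φ → Eqv X 0 y 9 ψ →
      ψ e2 = φ e2 ∨ ψ e2 = -φ e2) →
    (∀ y ∈ X, ‖y‖ = L → Off y →
      (y 0 = 0 ∨ y 1 = 0 ∨ y 0 = y 1 ∨ y 0 = -(y 1)) ∧ 2 * |y 2| ≤ τ ∧
        0.121 * L ^ 2 ≤ y 2 ^ 2 ∧ y 2 ^ 2 ≤ L ^ 2 / 2) → False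

/-- D4d (follows from D4d1 and D4d2). Notation as in D4b, `d = L`, `L² ≤ 3`, and some `t e_2 ∈ X` with `0 < t < L`; let `τ` be the least such
`t` (FINK). At `p ∈ X`: (*) points of `X` within `< L` of `p` lie on `p + ℝ a_p` and have distance `≥ τ`, the
points `p ± τ a_p` lie in `X` (`rrE (π/4)` flips the axis), and `a_q = ±a_p` if `q ∈ X`, `0 < ‖q-p‖ < L`. All
`Off` vectors (at `p`: not parallel to `a_p`) have norm `≥ L`. By iteration `p + kτ a_p ∈ X`, with the same axis.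
T5c: an `Off` vector `(z,h)` of norm `L`: `2|z|² ≥ L²`, `0.121 L² ≤ h² ≤ L²/2`.
(1) Let `y = (ϱe^{iθ},h) ∈ X` be `Off` of norm `L`; `τ ≥ 2|h|`: `y - τe_2` (resp. `y+τe_2`, for `h < 0`) is an off
axis vector at `±τ e_2 ∈ X` whose axis is `±e_2`, so `ϱ²+(τ-|h|)² ≥ L²`.
(2) `y` lies on a mirror plane (azimuth multiple of 45°). Otherwise let `ψ ∈ (0,22.5°]` be the angle to the nearest
mirror plane, `σ` its reflection, `f` its unit normal (horizontal). `σy ∈ X`, `0 < ‖σy-y‖ = 2ϱ sin ψ ≤ 0.77ϱ < L`,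
so `a_y = ±f`. The other neighbouring mirror `σ'` gives `‖σ'y-y‖ = 2ϱ sin(45°-ψ)`, not parallel to `f`, so it is
`≥ L ≥ ϱ`, `45°-ψ ≥ 30°`, `ψ ≤ 15°`. The vector `-y` at the point `y` is off the axis `f` (its third coordinate
is `-h ≠ 0`), has norm `L` and height `|<y,f>| = ϱ sin ψ ≤ 0.26 L` with respect to `a_y = ±f`, but T5c
(transported to the point `y`) gives height² `≥ 0.121L²`, height `≥ 0.347L`: contradiction.
(3) Applying the group we may take `y = (ϱ, h)` with azimuth 0 or 45° and `h > 0`; turn the frame so that the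
azimuth is 0; `P` = the mirror plane `v 1 = 0`, `σ` its reflection. Let `Z = τe_2 ∈ X`, `a_Z = ±e_2`. The frame of
`Z` gives an off axis vector of norm `L` at `Z` with height `-h` and (rotating by multiples of 90° about
the axis) azimuth `δ ∈ [-45°,45°]`: `q = (ϱe^{iδ}, τ-h) ∈ X`.
`‖y-q‖² = 4ϱ²sin²(δ/2)+(τ-2h)² ≤ 0.5858ϱ² + (L-2h)² < L²`: indeed with `η = h/L ∈ [0.347,0.708]`,
`0.5858(1-η²) - 4η + 4η² < 0` (roots `0.1716` and `1`).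
`‖q‖² = ϱ²+(τ-h)² ≤ 2L²-2Lh ≤ 1.306·3 < 4` (`τ-h ≥ h > 0`).
(4) Case `q ≠ y`: by (*) `q - y ∥ a_y`; `σq ∈ X` (norm of `q` is `< 2`), `‖σq-y‖ = ‖q-y‖ < L`, so `σq - y ∥ a_y`
too, so `σq = q` or `σq - y = -(q-y)`. The latter gives third coordinate `τ-2h = 0` and first coordinate
`ϱcos δ = ϱ`, so `q = y`. So `σq = q`, `δ = 0`, `q - y = (0,τ-2h)` has norm `τ-2h < τ`, nonzero: contradiction
with (*).
(5) Case `q = y`: `τ = 2h`. Both `p_1 = -y` and `p_2 = τe_2 - y` are vectors at the point `y` of norm `L`,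
`‖p_2-p_1‖ = τ = 2h`, and the angle between them is `2ε` with `sin ε = h/L`, `0.347 ≤ sin ε`, `2ε < 60°` (`τ < L`).
They are off the axis `a_y`: if `p_1 = -y` were parallel to `a_y`, then, since `y + kτa_y ∈ X` for all integers
`k` (with the same axis `±a_y`), one of these points has distance `< τ` from `0`, so it is `0` (minimal distance
`τ`) and `a_0 = e_2 = ±a_y`, so `y` would be parallel to `e_2`, contradiction; the same for `p_2` with the point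
`Z` instead of `0`. By (2) transported to the point `y`, `p_1`, `p_2` lie on
mirror planes of the point `y`. Work in the frame of `y`. Let `σ_1` be the mirror reflection (at `y`) fixing `p_1`:
`y + σ_1p_2 ∈ X` is at distance `τ < L` from `0 = y + p_1`, as is `Z`; so by (*) at the point `0`
`σ_1p_2 - p_1 = ±(p_2-p_1)`; `-` is impossible (three points of a sphere), so `σ_1p_2 = p_2`: `p_2` lies in the
mirror plane of `p_1`: azimuth difference 0 or 180°. Elevations of `p_1, p_2` have absolute values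
`ε_1, ε_2 ∈ [20.3°,45°]` (T5c). Difference 180°: the angle between them is `≥ 90°`, contradiction. Difference 0,
same sign of the heights: the angle is `|ε_1-ε_2| ≤ 24.7° < 40.6° ≤ 2ε`, contradiction. Difference 0, opposite
signs: `p_3 = rrE(π/4) p_2` (in the frame of `y`) has azimuth `+45°` and height of the same sign as `p_1`:
`‖p_3-p_1‖² = L²(2-√2cosε_1cosε_2-2sinε_1sinε_2) < L²` (since `√2cosε_1cosε_2 + 2sinε_1sinε_2 ≥ √2cos(ε_1-ε_2) > 1`)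
and it is nonzero, so by (*) at `0`: `p_3 - p_1 ∥ p_2-p_1`; but `p_1, p_2` lie in one vertical plane of the frame
and `p_3` does not: contradiction. -/
def S_D4d : Prop := ∀ (r : ℝ) (X : Set E) (L d : ℝ), D4H r X L d → d = L → L ^ 2 ≤ 3 →
  (∃ t : ℝ, 0 < t ∧ t < L ∧ t • e2 ∈ X) → False

/-- R20a: item (1) of the proof in the docstring of S_R20 (`m = (1/2)(a+b)`, `q = m + κ θ`). -/
def S_R20a : Prop := ∀ (X : Set E) (L κ : ℝ) (a b θ : E), (∀ z : E, ∃ x ∈ X, ‖x - z‖ ≤ 1) →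
  a ∈ X → b ∈ X → ‖b - a‖ = L → (∀ z ∈ X, ‖z - a‖ < L → L ≤ ‖z - b‖) → 1.999999 ≤ L → L ≤ 2 →
  0.0011 ≤ κ → ‖θ‖ = 1 → inner ℝ θ (b - a) = 0 →
  ∃ u ∈ X, ‖u - ((1 / 2 : ℝ) • (a + b) + κ • θ)‖ ≤ 1 ∧ u ≠ a ∧ u ≠ b ∧
    ((L ≤ ‖u - b‖ ∧ ‖u - a‖ ≤ √(2 * (1 - L ^ 2 / 4) + 2 * κ ^ 2) + 2 * κ) ∨
     (L ≤ ‖u - a‖ ∧ ‖u - b‖ ≤ √(2 * (1 - L ^ 2 / 4) + 2 * κ ^ 2) + 2 * κ))

/-- R20 (use R20a for item (1); if `L` is almost 2 there are independent very short vectors). Proof. Let `t² = 1 - L²/4`, so `t < 0.0011`.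
Let `a ∈ X`, `b` its lens partner, `‖b-a‖ = L`, `n = (b-a)/L`, `m` the midpoint.
(1) For `0.0011 < κ` and a unit `θ ⊥ n` let `q = m + κθ`; `‖q-a‖² = ‖q-b‖² = 1 - t² + κ² > 1`. Covering gives
`u ∈ X`, `‖u-q‖ ≤ 1`, `u ≠ a,b`; by the lens property `‖u-b‖ ≥ L` or `‖u-a‖ ≥ L`. If `‖u-b‖ ≥ L` then with
`p = u - q`: `2<p,b-q> ≤ ‖p‖²+‖b-q‖²-L²`, so
`‖p+(b-q)‖² = ‖p‖²+‖b-q‖²+2<p,b-q> ≤ 2‖p‖²+2‖b-q‖²-L² ≤ 2+2(1-t²+κ²)-4(1-t²) = 2t²+2κ²`; as
`-(b-q) = (a-q)+2κθ`: `‖u-a‖ ≤ √(2t²+2κ²)+2κ`. Similarly with `a`, `b` exchanged.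
(2) By `Nn X 2` it is enough to prove the claim for the point `a` or for the point `b` (any one point). Suppose for
all `x ∈ X` all vectors of `K_x(0.2)` are pairwise linearly dependent: they lie on a line `ℝλ_x`, `λ_x` a unit
vector (unique up to sign, as (1) with `κ = 0.05` gives a nonzero vector in `K_a(0.2)` or `K_b(0.2)`, hence in all).
(3) Take `κ = 0.05` and a unit `θ ⊥ n` with `<θ,λ_a>² ≤ 1/2`, `<θ,λ_b>² ≤ 1/2` (in the plane `n^⊥` the projections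
of `λ_a`, `λ_b` have norm `≤ 1`; for two vectors `α,β` of norm `≤ 1` in a plane there is a unit `θ` with
`<θ,α>² ≤ 1/2` and `<θ,β>² ≤ 1/2`: for an orthonormal basis `θ, θ'` at least one of them is good for `α`; intermediate
value theorem, or take `θ` orthogonal to the bisector `α̂+β̂` or `α̂-β̂`, whichever makes the angle with both at least
45 degrees). By (1) `u` satisfies `‖u-a‖ < 0.18` or `‖u-b‖ < 0.18`; say `u = a + τλ`, `τ > 0`, `λ = ±λ_a` (the case of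
`b` is the same with `a,b` exchanged and `n` replaced by `-n`). `‖u-q‖² ≤ 1`:
`1-t²+κ²+2τ<a-q,λ>+τ² ≤ 1`, `a-q = -(L/2)n-κθ`: `L<n,λ>+2κ<θ,λ> ≥ (κ²-t²+τ²)/τ ≥ 2√(κ²-t²) ≥ 0.0999`, and
`2κ<θ,λ> ≤ 0.1/√2 ≤ 0.0711`; so `L<n,λ> ≥ 0.028`, `<n,λ> ≥ 0.014`.
(4) Now take `κ = 0.002` and a unit `θ ⊥ n`, `θ ⊥ λ_b`; `u` as in (1), `‖u-a‖` or `‖u-b‖` is
`≤ √2·√(t²+κ²)+2κ ≤ 0.0075`. If `u = b + τλ_b` (`τ` of any sign, `|τ| ≤ 0.0075`, `‖u-b‖ < L` so `‖u-a‖ ≥ L`):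
`‖Ln+τλ_b‖² ≥ L²` gives `2τL<n,λ_b> ≥ -τ²`, and `‖u-q‖² = 1-t²+κ²+τL<n,λ_b>+τ² ≥ 1-t²+κ²+τ²/2 > 1`:
contradiction. If `u = a + τλ` (`λ` as in (3), `τ` of any sign, `|τ| ≤ 0.0075`, `‖u-b‖ ≥ L`):
`‖-Ln+τλ‖² ≥ L²` gives `2τL<n,λ> ≤ τ²`, so if `τ > 0` then `τ ≥ 2L<n,λ> ≥ 0.056`, contradiction; if `τ < 0`:
`‖u-q‖² = 1-t²+κ²+|τ|(L<n,λ>+2κ<θ,λ>)+τ² ≥ 1-t²+κ²+|τ|(0.028-0.004) > 1`, contradiction. -/
def S_R20 : Prop := ∀ (r : ℝ) (X : Set E) (L : ℝ), Del r X → Nn X 2 → Lens X L → 1.999999 ≤ L → L ≤ 2 →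
  ∀ x ∈ X, ∃ v w : E, ‖v‖ ≤ 0.2 ∧ ‖w‖ ≤ 0.2 ∧ x + v ∈ X ∧ x + w ∈ X ∧ LinearIndependent ℝ ![v, w]

/-- B2 (layered case, local structure at `0`). Proof. Coordinates `ℂ × ℝ`, `v = (z,h)`. `R` = rotation by `2π/n`.
(1) Let `y = (z,h)` be an `Off` vector of `X` of minimal norm `d ≤ 0.2`. LP with `p = R'y, q = R'⁻¹y`, `R' = R` for
`n = 4` (90°) and `n = 6` (60°): `‖Ry-y‖² = 2|z|²` resp. `|z|²`, so `|z| ≥ d/√2`.
(2) Let `b = (w,η)` be a lens partner of `0`, `W = |w|`, `W²+η² = L²`. For every `v = (z,h) ∈ X` with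
`‖v‖ ≤ 1.8 < L` the vectors `(R^k z, ±h)` lie in `X` and have norm `< L`, so `<(R^kz,±h),b> ≤ ‖v‖²/2`; choosing `k`
(azimuth within 45° of `w`) and the sign: `|z|W/√2 + |h||η| ≤ ‖v‖²/2`. For `v = y`: `dW/2 ≤ d²/2`, `W ≤ 0.2`,
`|η| ≥ √(L²-0.04) ≥ 1.98`. So for all such `v`: `|h| ≤ ‖v‖²/3.96`.
(3) `MinD X s` for some `s ≤ 0.2` (MIN, `y ≠ 0`). Let `v = (z,h) ∈ X`, `‖v‖ = s`: `2|h| ≤ 2s²/3.96 < s`, and
`(z,-h) ∈ X` has distance `2|h| < s` from `v`, so `h = 0`. Fix one such `v₀` (MinD.att); all `R^kv₀ ∈ X`; for any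
`v ∈ X` with `‖v‖ = s` some `R^kv₀` makes an angle `≤ 45°` with `v`, distance `≤ 2s sin 22.5° < s`, so
`v = R^kv₀`. -/
def S_B2 : Prop := ∀ (r : ℝ) (X : Set E) (L : ℝ) (n : ℕ), BH r X L n →
  ∃ (s : ℝ) (v₀ : E), s ≤ 0.2 ∧ MinD X s ∧ ‖v₀‖ = s ∧ v₀ 2 = 0 ∧
    (∀ k : ℕ, rotE (k * (2 * π / n)) v₀ ∈ X) ∧
    (∀ v ∈ X, ‖v‖ = s → ∃ k : ℕ, v = rotE (k * (2 * π / n)) v₀) ∧
    (∀ v ∈ X, ‖v‖ ≤ 1.8 → |v 2| ≤ ‖v‖ ^ 2 / 3.9)

/-- B3 (layered case, global structure), from B2. Proof. For `x ∈ X` let `φ_x` be an equivalence `Eqv X 0 x 9 φ_x`,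
`a_x = φ_x e_2`, `N_x = {v | ‖v‖ = s, x+v ∈ X} = φ_x N_0`: a regular `n`-gon (`n` = 4 or 6) in the plane `a_x^⊥`,
invariant under the rotation by `2π/n` about `a_x`. Transported from `0`: for `v` with `‖v‖ ≤ 1.8`, `x+v ∈ X`:
`|<v,a_x>| ≤ ‖v‖²/3.9` and `x + (v - 2<v,a_x>a_x) ∈ X` (ssig). (*) So if moreover `2‖v‖²/3.9 < s` then
`<v,a_x> = 0` (two points of `X` at distance `2|<v,a_x>| < s` are equal).
(1) If `v ∈ N_x`, `Y = x+v`, then `a_Y = ±a_x` and `N_Y = N_x`: let `R` be the rotation by `2π/n` about `a_x`;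
`-v` and `Rv - v` are vectors of `K_Y` of norm `≤ √2 s`, `2·2s²/3.9 < s`, so by (*) at `Y` both are orthogonal to
`a_Y`; they span `a_x^⊥`; so `a_Y = ±a_x`. `-v ∈ N_Y ∩ N_x`, and both `N_Y` and `N_x` are the orbit of `-v` under
the rotations by multiples of `2π/n` about `a_x`.
(2) By induction over `Lam X s x` (closure; `N_x = -N_x`): for `v ∈ Lam X s x`: `x+v ∈ X`, `N_{x+v} = N_x`,
`a_{x+v} = ±a_x`, `<v,a_x> = 0`.
(3) For every `w ⊥ a_x` there is `v ∈ Lam X s x` with `‖w-v‖ ≤ 0.87 s`: write `w = αv_0+βRv_0` and round: the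
remainder `δ_1v_0+δ_2Rv_0`, `|δ_i| ≤ 1/2`, has norm² `s²(δ_1²+δ_2²+2δ_1δ_2cos(2π/n)) ≤ 3s²/4`.
(4) If `z ∈ X`, `|<z-x,a_x>| < 1.7`, then `z - x ∈ Lam X s x`: by (3) take `x' = x + v` with
`z - x' = ζ + H a_x`, `ζ ⊥ a_x`, `‖ζ‖ ≤ 0.87s ≤ 0.174`, `|H| < 1.7`; `‖z-x'‖ < 1.8`, so
`|H| ≤ (‖ζ‖²+H²)/3.9`, `|H|(3.9-|H|) ≤ ‖ζ‖² ≤ 0.76 s²`, `|H| ≤ 0.35 s²`; so `2|H| < s`, and the reflected point is
`z` itself (as in (*)), `H = 0`, `‖z-x'‖ = ‖ζ‖ < s`, so `z = x'`.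
(5) If `z ∈ X`, `‖z-x‖ ≤ 1.8`: `|<z-x,a_x>| ≤ 3.24/3.9 < 1.7`, so `z-x ∈ Lam X s x` by (4).
(6) `a_z = ±a_x` for all `x,z ∈ X`: otherwise the planes `x+a_x^⊥` and `z+a_z^⊥` have a common point `p`; by (3)
there are `x' ∈ x+Lam_x`, `z' ∈ z+Lam_z` within `0.174` of `p`; `‖x'-z'‖ < 1.8`, so by (5) at `x'`,
`z'-x' ∈ Lam X s x' = Lam X s x`, so `a_{z'} = ±a_x`, and `a_{z'} = ±a_z`. So all axes are `±e_2`. -/
def S_B3 : Prop := ∀ (r : ℝ) (X : Set E) (L : ℝ) (n : ℕ), BH r X L n →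
  ∃ s : ℝ, s ≤ 0.2 ∧ MinD X s ∧ ∀ x ∈ X, LayerAt X e2 s x

/-- B4 (layered case, regularity). Notation: `Lam_x = Lam X s x`, `G_x = Aut X x 2.3`. Proof.
(0) By T0 with `e = ±a` every `x ∈ X` has `p ∈ X` with `‖p-x‖ ≤ 2`, `<p-x,a> > 0` (hence `≥ 1.7`, as otherwise
`p - x ∈ Lam_x` by `slab`, orthogonal to `a`), and a `q ∈ X`, `‖q-x‖ ≤ 2`, `<q-x,a> ≤ -1.7`.
(1) Let `x,y ∈ X`, `g` with `Eqv X x y 2.3 g`, `F z = y+g(z-x)`. Call `u ∈ X` good if `F u ∈ X` and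
`Eqv X u (F u) 2.3 g`. If `u` is good, then `g` maps `{v | ‖v‖ = s, u+v ∈ X}` onto the same set at `F u`, so
`g Lam_u = Lam_{Fu}`, and `g a = ±a` (both lattices span `a^⊥` by `dense`). The same holds for `p ∈ X` with
`‖p-u‖ ≤ 2.1`: `F p ∈ X` and `g Lam_p = Lam_{Fp}` (since `2.1 + s ≤ 2.3`). So `F (p+Lam_p) = F p + Lam_{Fp} ⊆ X`.
(2) Claim A: `u` good, `v ∈ Lam_u` implies `b = u+v` good. `F b = F u + g v ∈ X`. Let `‖w‖ ≤ 2.3`, `b+w ∈ X`; to show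
`F b + g w ∈ X`. If `|<w,a>| < 1.7`: `w ∈ Lam_b = Lam_u` (`slab`, `same`), `g w ∈ Lam_{Fu} = Lam_{Fb}`. If
`<w,a> ≥ 1.7` let `p` be as in (0) for `u`: `<b+w-p,a> = <w,a> - <p-u,a> ∈ [-0.3,0.6]`, so `b+w ∈ p+Lam_p` and
`F(b+w) ∈ X` by (1). Similarly below. The converse direction is the same statement for `g⁻¹` at `F u`, `F b`.
(3) Claim B: `u` good, `b ∈ X`, `‖b-u‖ ≤ 2.1`, `|<b-u,a>| ≥ 1.7` implies `b` good. `b' = F b ∈ X`,
`g Lam_b = Lam_{b'}`. Let `h` with `Eqv X b b' 2.3 h`, `h Lam_b = Lam_{b'}`. `φ = h⁻¹g` has `φ Lam_b = Lam_b`, so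
`φ ∈ Aut X b 1.8` (for `‖w‖ ≤ 1.8`: `b+w ∈ X ↔ w ∈ Lam_b` by `near`, `flat`). If `φ ∈ G_b` then `g = hφ` is an
equivalence at radius `2.3`, done. Otherwise `-φ ∈ G_b`, so `-g = h(-φ)` is an equivalence:
(**) `b+w ∈ X ↔ b'-g w ∈ X` for `‖w‖ ≤ 2.3`. We show `negI ∈ G_{b'}`, a contradiction. Let `ε = ±1` with
`ε<u-b,a> ≥ 1.7`. For `‖w‖ ≤ 2.3`, `ε<w,a> ≥ 1.7`: `b+w ∈ X ↔ b'+g w ∈ X`. (→: `b+w` has height difference `< 1.7`
from `u`, so it is in `u+Lam_u`, `F(b+w) ∈ X`. ←: the same for `g⁻¹`, as `g a = ±a`.) With (**):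
`b'+gw ∈ X ↔ b'-gw ∈ X` for these `w`, hence also for `-w`; and for `|<w,a>| < 1.7` both are equivalent to
`gw ∈ Lam_{b'}`. As every `w'` with `‖w'‖ ≤ 2.3` is `g w`, `negI ∈ Aut X b' 2.3`.
(4) Every `z ∈ X` is good: starting from `x`, move with Claim B along the points of (0) up or down (each step
changes the height by at least `1.7` and at most `2`) until `|<z-u,a>| < 1.7` (while the height difference is
`≥ 1.7` the step in its direction makes its absolute value `≤ max(0.3, old - 1.7)`), then `z ∈ u+Lam_u` by `slab`,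
Claim A. So `F '' X ⊆ X`; the same for `g⁻¹` from `y` to `x`; so `F '' X = X`, `F x = y`. -/
def S_B4 : Prop := ∀ (r : ℝ) (X : Set E) (a : E) (s : ℝ), Del r X → Nn X 3 → ‖a‖ = 1 → s ≤ 0.2 →
  MinD X s → (∀ x ∈ X, LayerAt X a s x) →
  (∀ x ∈ X, ∀ g ∈ Aut X x 1.8, g ∈ Aut X x 2.3 ∨ negI * g ∈ Aut X x 2.3) →
  (∀ x ∈ X, negI ∉ Aut X x 2.3) → Reg X

end Pool.Agent.H576.RD
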