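import Mathlib
import Pool.Agent.H576.RD.Basic

/-! # Moving a Delone set by a frame -/

set_option autoImplicit false

namespace Pool.Agent.H576.RD

theorem li_inv_apply (β : LI) (v : E) : (β⁻¹ : LI) (β v) = v :=
  LinearIsometryEquiv.symm_apply_apply β v

theorem li_apply_inv (β : LI) (v : E) : β ((β⁻¹ : LI) v) = v :=
  LinearIsometryEquiv.apply_symm_apply β v

theorem li_mul_apply (g h : LI) (v : E) : (g * h) v = g (h v) := rfl

theorem mem_Mv {X : Set E} {x : E} {β : LI} {v : E} : v ∈ Mv X x β ↔ x + β v ∈ X := Iff.rfl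

theorem zero_mem_Mv {X : Set E} {x : E} {β : LI} : (0 : E) ∈ Mv X x β ↔ x ∈ X := by
  simp [mem_Mv]

theorem Mv_mem_of {X : Set E} {x : E} {β : LI} {y : E} (hy : y ∈ X) :
    (β⁻¹ : LI) (y - x) ∈ Mv X x β := by
  rw [mem_Mv, li_apply_inv]; simpa using hy

theorem Mv_norm {x : E} {β : LI} {p q : E} : ‖(x + β q) - (x + β p)‖ = ‖q - p‖ := by
  rw [add_sub_add_left_eq_sub, ← map_sub, LinearIsometryEquiv.norm_map]

theorem Mv_norm' {x : E} {β : LI} {y z : E} :
    ‖(β⁻¹ : LI) (z - x) - (β⁻¹ : LI) (y - x)‖ = ‖z - y‖ := by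
  rw [← map_sub, LinearIsometryEquiv.norm_map]; congr 1; abel

theorem Mv_Del {r : ℝ} {X : Set E} {x : E} {β : LI} (h : Del r X) : Del r (Mv X x β) where
  rpos := h.rpos
  sep := by
    intro p hp q hq hpq
    have := h.sep (x + β p) hp (x + β q) hq (by
      intro he
      exact hpq (β.injective (add_left_cancel he)))
    rwa [Mv_norm] at this
  cov := by
    intro z
    obtain ⟨y, hy, hyz⟩ := h.cov (x + β z)
    refine ⟨(β⁻¹ : LI) (y - x), Mv_mem_of hy, ?_⟩
    have : ‖(β⁻¹ : LI) (y - x) - z‖ = ‖y - (x + β z)‖ := by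
      rw [← LinearIsometryEquiv.norm_map β, map_sub, li_apply_inv]; congr 1; abel
    rw [this]; exact hyz

theorem Mv_Eqv {X : Set E} {x : E} {β : LI} {p q : E} {ρ : ℝ} {g : LI} :
    Eqv (Mv X x β) p q ρ g ↔ Eqv X (x + β p) (x + β q) ρ (β * g * β⁻¹) := by
  constructor
  · intro h v hv
    have h1 := h ((β⁻¹ : LI) v) (by rwa [LinearIsometryEquiv.norm_map])
    rw [mem_Mv, mem_Mv, map_add, map_add, li_apply_inv, ← add_assoc, ← add_assoc] at h1
    exact h1
  · intro h v hv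
    have h1 := h (β v) (by rwa [LinearIsometryEquiv.norm_map])
    rw [li_mul_apply, li_mul_apply, li_inv_apply] at h1
    rw [mem_Mv, mem_Mv, map_add, map_add, ← add_assoc, ← add_assoc]
    exact h1

theorem Mv_Nn {X : Set E} {x : E} {β : LI} {ρ : ℝ} (h : Nn X ρ) : Nn (Mv X x β) ρ := by
  intro p hp q hq
  obtain ⟨g, hg⟩ := h (x + β p) hp (x + β q) hq
  refine ⟨β⁻¹ * g * β, ?_⟩
  rw [Mv_Eqv]
  have : β * (β⁻¹ * g * β) * β⁻¹ = g := by group
  rw [this]; exact hg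

theorem Mv_Conn {X : Set E} {x : E} {β : LI} {L : ℝ} (h : Conn X L) : Conn (Mv X x β) L := by
  intro p hp q hq
  have h1 := h (x + β p) hp (x + β q) hq
  have h2 : ∀ z : E, Relation.ReflTransGen (fun p q => q ∈ X ∧ ‖q - p‖ ≤ L) (x + β p) z →
      Relation.ReflTransGen (fun p q => q ∈ Mv X x β ∧ ‖q - p‖ ≤ L) p ((β⁻¹ : LI) (z - x)) := by
    intro z hz
    induction hz with
    | refl => rw [add_sub_cancel_left, li_inv_apply]
    | tail _ hs ih =>
      refine ih.tail ⟨Mv_mem_of hs.1, ?_⟩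
      rw [Mv_norm']; exact hs.2
  have h3 := h2 _ h1
  rwa [add_sub_cancel_left, li_inv_apply] at h3

theorem Mv_Lens {X : Set E} {x : E} {β : LI} {L : ℝ} (h : Lens X L) : Lens (Mv X x β) L := by
  intro p hp
  obtain ⟨b, hb, hbL, hz⟩ := h (x + β p) hp
  refine ⟨(β⁻¹ : LI) (b - x), Mv_mem_of hb, ?_, ?_⟩
  · rw [← LinearIsometryEquiv.norm_map β, map_sub, li_apply_inv, ← hbL]; congr 1; abel
  · intro z hz' hzp
    have := hz (x + β z) hz' (by rwa [Mv_norm])
    have e : ‖z - (β⁻¹ : LI) (b - x)‖ = ‖x + β z - b‖ := by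
      rw [← LinearIsometryEquiv.norm_map β, map_sub, li_apply_inv]; congr 1; abel
    rw [e]; exact this

theorem Mv_MinD {X : Set E} {x : E} {β : LI} {s : ℝ} (h : MinD X s) : MinD (Mv X x β) s where
  pos := h.pos
  le := by
    intro p hp q hq hpq
    have := h.le (x + β p) hp (x + β q) hq (by
      intro he
      exact hpq (β.injective (add_left_cancel he)))
    rwa [Mv_norm] at this
  att := by
    intro p hp
    obtain ⟨y, hy, hys⟩ := h.att (x + β p) hp
    refine ⟨(β⁻¹ : LI) (y - x), Mv_mem_of hy, ?_⟩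
    rw [← LinearIsometryEquiv.norm_map β, map_sub, li_apply_inv, ← hys]; congr 1; abel

/-- The affine isometry `v ↦ x + β v`. -/
noncomputable def aff (x : E) (β : LI) : E ≃ᵢ E :=
  β.toIsometryEquiv.trans (IsometryEquiv.addLeft x)

theorem aff_apply (x : E) (β : LI) (v : E) : aff x β v = x + β v := rfl

theorem Mv_Reg {X : Set E} {x : E} {β : LI} (h : Reg (Mv X x β)) : Reg X := by
  intro y hy z hz
  obtain ⟨g, hg, hgy⟩ := h _ (Mv_mem_of (x := x) (β := β) hy) _ (Mv_mem_of (x := x) (β := β) hz)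
  have hpre : ∀ w : E, (aff x β).symm w = (β⁻¹ : LI) (w - x) := by
    intro w
    apply (aff x β).injective
    rw [IsometryEquiv.apply_symm_apply, aff_apply, li_apply_inv]; abel
  refine ⟨((aff x β).symm.trans g).trans (aff x β), ?_, ?_⟩
  · ext w
    constructor
    · rintro ⟨v, hv, rfl⟩
      rw [IsometryEquiv.trans_apply, IsometryEquiv.trans_apply, hpre, aff_apply]
      have h1 : g ((β⁻¹ : LI) (v - x)) ∈ g '' Mv X x β := ⟨_, Mv_mem_of hv, rfl⟩
      rw [hg] at h1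
      exact h1
    · intro hw
      have h1 : (β⁻¹ : LI) (w - x) ∈ g '' Mv X x β := by rw [hg]; exact Mv_mem_of hw
      obtain ⟨v, hv, hgv⟩ := h1
      refine ⟨x + β v, hv, ?_⟩
      rw [IsometryEquiv.trans_apply, IsometryEquiv.trans_apply, hpre, add_sub_cancel_left,
        li_inv_apply, hgv, aff_apply, li_apply_inv]
      abel
  · rw [IsometryEquiv.trans_apply, IsometryEquiv.trans_apply, hpre, hgy, aff_apply, li_apply_inv]; abel

theorem Mv_Sym {X : Set E} {x : E} {β : LI} {ρ : ℝ} {f : E → E}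
    (h : HasB (Aut X x ρ) β f) : Sym (Mv X x β) ρ f := by
  obtain ⟨g, hg, hgf⟩ := h
  intro v hv
  have h1 := (mem_Aut.1 hg) (β v) (by rwa [LinearIsometryEquiv.norm_map])
  rw [hgf v] at h1
  exact h1

theorem mem_Aut_Mv {X : Set E} {x : E} {β : LI} {p : E} {ρ : ℝ} {g : LI} :
    g ∈ Aut (Mv X x β) p ρ ↔ β * g * β⁻¹ ∈ Aut X (x + β p) ρ := Mv_Eqv

theorem card_Aut_Mv {X : Set E} {x : E} {β : LI} {ρ : ℝ} :
    Nat.card (Aut (Mv X x β) 0 ρ) = Nat.card (Aut X x ρ) := by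
  have h0 : x + β 0 = x := by simp
  refine Nat.card_congr ⟨fun g => ⟨β * g.1 * β⁻¹, by
      have := (mem_Aut_Mv (β := β)).1 g.2; rwa [h0] at this⟩,
    fun g => ⟨β⁻¹ * g.1 * β, by
      rw [mem_Aut_Mv, h0]
      have : β * (β⁻¹ * g.1 * β) * β⁻¹ = g.1 := by group
      rw [this]; exact g.2⟩, ?_, ?_⟩
  · intro g; apply Subtype.ext; show β⁻¹ * (β * g.1 * β⁻¹) * β = g.1; group
  · intro g; apply Subtype.ext; show β * (β⁻¹ * g.1 * β) * β⁻¹ = g.1; group

/-- Conjugation of stabilisers along an equivalence. -/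
theorem Aut_conj {X : Set E} {x y : E} {ρ σ : ℝ} {φ : LI} (h : Eqv X x y ρ φ) (hσ : σ ≤ ρ)
    {g : LI} : g ∈ Aut X x σ ↔ φ * g * φ⁻¹ ∈ Aut X y σ := by
  have h' := h.mono hσ
  constructor
  · intro hg
    have h1 : Eqv X y x σ φ⁻¹ := h'.symm
    have h2 : Eqv X x x σ g := hg
    have h3 := (h1.trans h2).trans h'
    have : φ * (g * φ⁻¹) = φ * g * φ⁻¹ := by group
    rw [this] at h3
    exact h3
  · intro hg
    have h1 : Eqv X y x σ φ⁻¹ := h'.symm
    have h2 : Eqv X y y σ (φ * g * φ⁻¹) := hg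
    have h3 := (h'.trans h2).trans h1
    have : φ⁻¹ * (φ * g * φ⁻¹ * φ) = g := by group
    rw [this] at h3
    exact h3

theorem mem_Aut_zero {X : Set E} {ρ : ℝ} {g : LI} :
    g ∈ Aut X 0 ρ ↔ ∀ v : E, ‖v‖ ≤ ρ → (v ∈ X ↔ g v ∈ X) := by
  rw [mem_Aut]; simp

theorem negI_conj (φ : LI) : φ * negI * φ⁻¹ = negI := by
  ext1 v
  rw [li_mul_apply, li_mul_apply, negI_apply, negI_apply, map_neg, li_apply_inv]

theorem negI_mem_Aut {X : Set E} {x : E} {ρ : ℝ} :
    negI ∈ Aut X x ρ ↔ ∀ v : E, ‖v‖ ≤ ρ → x + v ∈ X → x - v ∈ X := by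
  rw [mem_Aut]
  constructor
  · intro h v hv hx
    have := (h v hv).1 hx
    rwa [negI_apply, ← sub_eq_add_neg] at this
  · intro h v hv
    rw [negI_apply, ← sub_eq_add_neg]
    refine ⟨h v hv, fun hx => ?_⟩
    have := h (-v) (by rwa [norm_neg]) (by rwa [← sub_eq_add_neg])
    rwa [sub_neg_eq_add] at this

end Pool.Agent.H576.RD
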