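import Mathlib
import Pool.Agent.H576.RD.Stm
import Pool.Agent.H576.RD.Move

/-! # Assembly, part 1: general facts -/

set_option autoImplicit false

open Real

namespace Pool.Agent.H576.RD

/-- All lemmas. -/
structure HH : Prop where
  fink : S_FINK
  t0 : S_T0
  min : S_MIN
  fin : S_FIN
  t4 : S_T4
  t2 : S_T2
  t3 : S_T3
  t9 : S_T9
  t7 : S_T7
  t8 : S_T8
  g1 : S_G1
  t5a : S_T5a
  t5b : S_T5b
  t12 : S_T12
  t13 : S_T13
  c60 : S_C60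
  co : S_CO
  ct1a : S_CT1a
  ct1b : S_CT1b
  ct2 : S_CT2
  d4a : S_D4a
  d4b : S_D4b
  d4c : S_D4c
  d4d : S_D4d
  r20 : S_R20
  b8 : S_B8
  b3 : S_B3
  b4 : S_B4

theorem om_small (n : ℕ) (h1 : 1 ≤ n) (h2 : n ≤ 6) :
    Om n ≤ 3 ∧ Om (2 * n) ≤ 3 ∧ Om (4 * n) ≤ 4 ∧ (n ≠ 4 → n ≠ 6 → Om (4 * n) ≤ 3) := by
  unfold Om
  interval_cases n <;> simp

theorem om_big : Om 12 = 3 ∧ Om 24 = 4 ∧ Om 60 = 4 ∧ Om 16 = 4 := by
  unfold Om; simp

theorem exists_perp (v : E) : ∃ e : E, ‖e‖ = 1 ∧ inner ℝ v e = 0 := by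
  obtain ⟨w, hw, hvw⟩ : ∃ w : E, w ≠ 0 ∧ inner ℝ v w = 0 := by
    by_cases h : v 0 = 0 ∧ v 1 = 0
    · refine ⟨!₂[1, 0, 0], ?_, ?_⟩
      · intro h0
        have := congrArg (fun u : E => u 0) h0
        simp at this
      · simp [PiLp.inner_apply, Fin.sum_univ_three, h.1]
    · refine ⟨!₂[-(v 1), v 0, 0], ?_, ?_⟩
      · intro h0
        have h1 := congrArg (fun u : E => u 0) h0
        have h2 := congrArg (fun u : E => u 1) h0
        simp at h1 h2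
        exact h ⟨h2, h1⟩
      · simp [PiLp.inner_apply, Fin.sum_univ_three]; ring
  have hw' : ‖w‖ ≠ 0 := norm_ne_zero_iff.2 hw
  refine ⟨(1 / ‖w‖) • w, ?_, ?_⟩
  · rw [norm_smul, Real.norm_of_nonneg (by positivity)]; field_simp
  · rw [real_inner_smul_right, hvw, mul_zero]

theorem exists_indep (hT0 : S_T0) {r : ℝ} {X : Set E} (hD : Del r X) {x : E} (hx : x ∈ X) :
    ∃ v w : E, ‖v‖ ≤ 2 ∧ ‖w‖ ≤ 2 ∧ x + v ∈ X ∧ x + w ∈ X ∧ LinearIndependent ℝ ![v, w] := by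
  obtain ⟨e1, he1, -⟩ := exists_perp 0
  obtain ⟨v, hv0, hv2, hvX, -⟩ := hT0 r X hD x hx e1 he1
  obtain ⟨e, he, hve⟩ := exists_perp v
  obtain ⟨w, hw0, hw2, hwX, hwe⟩ := hT0 r X hD x hx e he
  refine ⟨v, w, hv2, hw2, hvX, hwX, ?_⟩
  rw [LinearIndependent.pair_iff]
  intro a b hab
  have h1 : inner ℝ (a • v + b • w) e = 0 := by rw [hab]; simp
  rw [inner_add_left, real_inner_smul_left, real_inner_smul_left, hve, mul_zero, zero_add] at h1
  have hpos : 0 < inner ℝ w e := by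
    have : 0 < ‖w‖ ^ 2 := by positivity
    linarith
  have hb : b = 0 := by
    rcases mul_eq_zero.1 h1 with h | h
    · exact h
    · exact absurd h hpos.ne'
  subst hb
  simp [hv0] at hab
  exact ⟨hab, rfl⟩

theorem eq_smul_e2 {u : E} (h : ¬ Off u) : u = (u 2) • e2 := by
  unfold Off at h
  push Not at h
  ext i
  fin_cases i
  · simp [e2, h.1]
  · simp [e2, h.2]
  · simp [e2]

theorem off_or {v w : E} (h : LinearIndependent ℝ ![v, w]) (β : LI) :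
    Off ((β⁻¹ : LI) v) ∨ Off ((β⁻¹ : LI) w) := by
  by_contra hc
  rw [not_or] at hc
  have h1 := eq_smul_e2 hc.1
  have h2 := eq_smul_e2 hc.2
  set a := ((β⁻¹ : LI) v) 2
  set b := ((β⁻¹ : LI) w) 2
  have hv : v = a • β e2 := by
    rw [← map_smul, ← h1, li_apply_inv]
  have hw : w = b • β e2 := by
    rw [← map_smul, ← h2, li_apply_inv]
  have h3 := LinearIndependent.pair_iff.1 h b (-a) (by
    rw [hv, hw, smul_smul, smul_smul, ← add_smul]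
    have : b * a + -a * b = 0 := by ring
    rw [this, zero_smul])
  have hb0 : b = 0 := h3.1
  have : w = 0 := by rw [hw, hb0, zero_smul]
  exact (h.ne_zero 1) (by simpa using this)

theorem Irr_mono {G H : Subgroup LI} (h : G ≤ H) (hG : Irr G) : Irr H := by
  intro a ha
  obtain ⟨g, hg, h1⟩ := hG a ha
  exact ⟨g, h hg, h1⟩

theorem redu (H : HH) {r : ℝ} {X : Set E} {ρ : ℝ} {x v w : E} (hD : Del r X) (hN : Nn X ρ)
    (hx : x ∈ X) (hv : ‖v‖ ≤ ρ) (hw : ‖w‖ ≤ ρ) (hvX : x + v ∈ X) (hwX : x + w ∈ X)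
    (hi : LinearIndependent ℝ ![v, w]) (hirr : ¬ Irr (Aut X x ρ)) :
    ∃ (β : LI) (n : ℕ), 1 ≤ n ∧ n ≤ 6 ∧ HasB (Aut X x ρ) β (rotE (2 * π / n)) ∧
      (∃ u ∈ Mv X x β, ‖u‖ ≤ ρ ∧ Off u ∧ (u = (β⁻¹ : LI) v ∨ u = (β⁻¹ : LI) w)) ∧
      (Nat.card (Aut X x ρ) = n ∨ Nat.card (Aut X x ρ) = 2 * n ∨
        (Nat.card (Aut X x ρ) = 4 * n ∧ HasB (Aut X x ρ) β mirE ∧
          (HasB (Aut X x ρ) β (rrE 0) ∨ HasB (Aut X x ρ) β (rrE (π / n))))) := by
  have hfin := H.fin r X x ρ v w hD hv hw hvX hwX hi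
  obtain ⟨β, n, h1, hrot, hcard⟩ := H.g1 (Aut X x ρ) hfin hirr
  have hoff : ∃ u ∈ Mv X x β, ‖u‖ ≤ ρ ∧ Off u ∧ (u = (β⁻¹ : LI) v ∨ u = (β⁻¹ : LI) w) := by
    rcases off_or hi β with h | h
    · refine ⟨(β⁻¹ : LI) v, ?_, by rwa [LinearIsometryEquiv.norm_map], h, Or.inl rfl⟩
      rw [mem_Mv, li_apply_inv]; exact hvX
    · refine ⟨(β⁻¹ : LI) w, ?_, by rwa [LinearIsometryEquiv.norm_map], h, Or.inr rfl⟩
      rw [mem_Mv, li_apply_inv]; exact hwX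
  refine ⟨β, n, h1, ?_, hrot, hoff, hcard⟩
  by_contra h7
  obtain ⟨u, hu, hu1, hu2, -⟩ := hoff
  exact H.t5a r (Mv X x β) ρ n (Mv_Del hD) (Mv_Nn hN) (zero_mem_Mv.2 hx) (by omega) (Mv_Sym hrot)
    ⟨u, hu, hu1, hu2⟩

/-- In all cases without `-1` in the irreducible case, the group has at most four prime factors. -/
theorem om_le_four (H : HH) {r : ℝ} {X : Set E} {ρ : ℝ} {x v w : E} (hD : Del r X) (hN : Nn X ρ)
    (hx : x ∈ X) (hv : ‖v‖ ≤ ρ) (hw : ‖w‖ ≤ ρ) (hvX : x + v ∈ X) (hwX : x + w ∈ X)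
    (hi : LinearIndependent ℝ ![v, w]) (hneg : negI ∉ Aut X x ρ) :
    Om (Nat.card (Aut X x ρ)) < 5 := by
  by_cases hirr : Irr (Aut X x ρ)
  · have hfin := H.fin r X x ρ v w hD hv hw hvX hwX hi
    rcases H.t7 _ hfin hirr hneg with h | h | h <;> rw [h] <;>
      simp [om_big.1, om_big.2.1, om_big.2.2.1]
  · obtain ⟨β, n, h1, h6, -, -, hc⟩ := redu H hD hN hx hv hw hvX hwX hi hirr
    have := om_small n h1 h6
    rcases hc with h | h | h
    · rw [h]; omega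
    · rw [h]; omega
    · rw [h.1]; omega

theorem tv_scale : (1 / √3 : ℝ) * (1 / √3) = 1 / 3 := by
  have : √3 * √3 = (3 : ℝ) := Real.mul_self_sqrt (by norm_num)
  rw [div_mul_div_comm, this]; norm_num

theorem norm_tv (i : Fin 4) : ‖tv i‖ = 1 := by
  have h : ‖tv i‖ ^ 2 = 1 := by
    rw [← real_inner_self_eq_norm_sq, tv, real_inner_smul_left, real_inner_smul_right, ← mul_assoc,
      tv_scale]
    rw [PiLp.inner_apply, Fin.sum_univ_three]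
    fin_cases i <;> simp <;> norm_num
  have h0 : 0 ≤ ‖tv i‖ := norm_nonneg _
  nlinarith

theorem inner_tv (i j : Fin 4) (hij : i ≠ j) : inner ℝ (tv i) (tv j) = -(1 / 3 : ℝ) := by
  rw [tv, tv, real_inner_smul_left, real_inner_smul_right, ← mul_assoc, tv_scale]
  fin_cases i <;> fin_cases j <;> first | exact absurd rfl hij | skip
  all_goals
    simp [PiLp.inner_apply, Fin.sum_univ_three]

end Pool.Agent.H576.RD
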