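import Mathlib
import Pool.Agent.H576.RD.Asm1

/-! # Assembly, part 2: irreducible groups -/

set_option autoImplicit false

open Real

namespace Pool.Agent.H576.RD

/-- The tetrahedral case is impossible if `s < L`. -/
theorem ct (H : HH) {X : Set E} {s L : ℝ} (hN : Nn X 2) (h0 : (0 : E) ∈ X) (hc : Sym X 2 cycE)
    (hd : Sym X 2 dE) (hw : Sym X 2 swE) (hM : MinD X s) (hL : Lens X L) (hL2 : L ≤ 2)
    (hsL : s < L) : False := by
  obtain ⟨ε, hε, hs, hnb, hlp, hlens⟩ := H.ct1a X s L h0 hc hd hw hM hL hL2 hsL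
  have honly := H.ct1b X s L ε h0 hc hd hw hM hL2 hsL hε hs hnb hlp hlens
  have hε2 : ε * ε = 1 := by rcases hε with h | h <;> rw [h] <;> norm_num
  have hεn : |ε| = 1 := by rcases hε with h | h <;> rw [h] <;> norm_num
  have hspos := hM.pos
  refine H.ct2 X s L ⟨0, h0⟩ hspos hsL hs ?_
  intro x hx
  obtain ⟨φ, hφ⟩ := hN 0 h0 x hx
  refine ⟨fun i => φ (ε • tv i), ?_, ?_, ?_, ?_, ?_⟩
  · intro i
    rw [LinearIsometryEquiv.norm_map, norm_smul, norm_tv, Real.norm_eq_abs, hεn, one_mul]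
  · intro i j hij
    show inner ℝ (φ (ε • tv i)) (φ (ε • tv j)) = _
    rw [LinearIsometryEquiv.inner_map_map, real_inner_smul_left, real_inner_smul_right,
      inner_tv i j hij, ← mul_assoc, hε2, one_mul]
  · intro i
    have h1 := (hφ (-((ε * s) • tv i)) (by
      rw [norm_neg, norm_smul, norm_tv, Real.norm_eq_abs, abs_mul, hεn, one_mul, mul_one,
        abs_of_pos hspos]; linarith)).1 (by rw [zero_add]; exact hnb i)
    have e : x + φ (-((ε * s) • tv i)) = x - s • φ (ε • tv i) := by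
      rw [map_neg, ← map_smul, smul_smul, mul_comm ε s, sub_eq_add_neg]
    rwa [e] at h1
  · intro z hz hzx hzL
    have hv : ‖(φ⁻¹ : LI) (z - x)‖ < L := by rwa [LinearIsometryEquiv.norm_map]
    have h1 := (hφ ((φ⁻¹ : LI) (z - x)) (by linarith)).2 (by
      rw [li_apply_inv]; simpa using hz)
    rw [zero_add] at h1
    obtain ⟨i, hi⟩ := honly _ h1 (by
      intro h
      apply hzx
      have h2 := congrArg φ h
      rw [li_apply_inv, map_zero] at h2
      exact sub_eq_zero.1 h2) hv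
    refine ⟨i, ?_⟩
    have h2 := congrArg φ hi
    rw [li_apply_inv] at h2
    have e : φ (-((ε * s) • tv i)) = - (s • φ (ε • tv i)) := by
      rw [map_neg, ← map_smul, smul_smul, mul_comm ε s]
    show z = x - s • φ (ε • tv i)
    rw [e] at h2
    rw [sub_eq_iff_eq_add] at h2
    rw [h2]; abel
  · intro i
    have hLpos : 0 < L := by linarith
    have h1 := (hφ ((ε * L) • tv i) (by
      rw [norm_smul, norm_tv, Real.norm_eq_abs, abs_mul, hεn, one_mul, mul_one,
        abs_of_pos hLpos]; linarith)).1 (by rw [zero_add]; exact hlp i)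
    have e : x + φ ((ε * L) • tv i) = x + L • φ (ε • tv i) := by
      rw [← map_smul, smul_smul, mul_comm ε L]
    rwa [e] at h1

/-- For irreducible stabilisers of order 24 or 60 the bottleneck is the minimal distance. -/
theorem c5_eq (H : HH) {X : Set E} {s L : ℝ} (hN : Nn X 2) {x : E} (hx : x ∈ X)
    (hM : MinD X s) (hL : Lens X L) (hL2 : L ≤ 2) (hfin : Finite (Aut X x 2))
    (hirr : Irr (Aut X x 2)) (hneg : negI ∉ Aut X x 2)
    (hcard : Nat.card (Aut X x 2) = 24 ∨ Nat.card (Aut X x 2) = 60) : ¬ s < L := by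
  intro hsL
  rcases hcard with h24 | h60
  · obtain ⟨β, hc, hd, hq⟩ := H.t8 _ hfin hirr hneg h24
    have h0 : (0 : E) ∈ Mv X x β := zero_mem_Mv.2 hx
    rcases hq with hq | hw
    · exact H.co _ s L h0 (Mv_Sym hc) (Mv_Sym hd) (Mv_Sym hq) (Mv_MinD hM) (Mv_Lens hL) hL2 hsL
    · exact ct H (Mv_Nn hN) h0 (Mv_Sym hc) (Mv_Sym hd) (Mv_Sym hw) (Mv_MinD hM) (Mv_Lens hL) hL2 hsL
  · exact H.c60 X s L x hx hM hL hsL hL2 hfin hirr hneg h60

theorem lens_ge {X : Set E} {s L : ℝ} (hM : MinD X s) (hL : Lens X L) (hL0 : 0 < L) {x : E}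
    (hx : x ∈ X) : s ≤ L := by
  obtain ⟨b, hb, hbL, -⟩ := hL x hx
  rw [← hbL]
  refine hM.le x hx b hb ?_
  rintro rfl
  rw [sub_self, norm_zero] at hbL
  linarith

/-- Two different independent vectors in a cluster which contains a nonzero vector, if the
stabiliser contains an irreducible group. -/
theorem indep_of_irr {X : Set E} {x v : E} {ρ : ℝ} (hv0 : v ≠ 0) (hv : ‖v‖ ≤ ρ) (hvX : x + v ∈ X)
    (hirr : Irr (Aut X x ρ)) :
    ∃ w : E, ‖w‖ ≤ ρ ∧ x + w ∈ X ∧ LinearIndependent ℝ ![v, w] := by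
  obtain ⟨g, hg, h1, h2⟩ := hirr v hv0
  refine ⟨g v, by rwa [LinearIsometryEquiv.norm_map], (hg v hv).1 hvX, ?_⟩
  rw [LinearIndependent.pair_iff]
  intro a b hab
  by_contra hc
  have hb : b ≠ 0 := by
    intro hb
    subst hb
    simp [hv0] at hab
    exact hc ⟨hab, rfl⟩
  have h3 : g v = (-(a / b)) • v := by
    have : b • g v = -(a • v) := by rw [eq_neg_iff_add_eq_zero, add_comm]; exact hab
    calc g v = b⁻¹ • (b • g v) := by rw [smul_smul, inv_mul_cancel₀ hb, one_smul]
      _ = (-(a / b)) • v := by rw [this, smul_neg, smul_smul, ← neg_smul]; congr 1; field_simp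
  have h4 : ‖v‖ = |(-(a / b))| * ‖v‖ := by
    conv_lhs => rw [← LinearIsometryEquiv.norm_map g v, h3, norm_smul, Real.norm_eq_abs]
  have h5 : |(-(a / b))| = 1 := by
    have hn : ‖v‖ ≠ 0 := norm_ne_zero_iff.2 hv0
    have : (|(-(a / b))| - 1) * ‖v‖ = 0 := by linarith
    rcases mul_eq_zero.1 this with h | h
    · linarith
    · exact absurd h hn
  rcases (abs_eq (by norm_num : (0 : ℝ) ≤ 1)).1 h5 with h | h
  · rw [h, one_smul] at h3; exact h1 h3
  · rw [h] at h3
    apply h2
    rw [h3]; simp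

/-- Case `L = s`, irreducible without `-1`. -/
theorem c5_fin (H : HH) {r : ℝ} {X : Set E} {s : ℝ} (hD : Del r X) (hN : Nn X 9.999996) {x : E}
    (hx : x ∈ X) (hM : MinD X s) (hs2 : s ≤ 2) (hC : Conn X s)
    (hirr : Irr (Aut X x 2)) (hneg : negI ∉ Aut X x 2) : Reg X := by
  have hs0 := hM.pos
  obtain ⟨v, w, hv, hw, hvX, hwX, hi⟩ := exists_indep H.t0 hD hx
  by_cases hs : s < 1.595
  · refine H.t2 X x 2 s 5 hx (by norm_num) hs0 hC (hN.mono (by push_cast; linarith))
      (H.fin r X x 2 v w hD hv hw hvX hwX hi)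
      (om_le_four H hD (hN.mono (by norm_num)) hx hv hw hvX hwX hi hneg)
  · have hs' : 1.595 ≤ s := not_lt.1 hs
    -- the bad set
    have hfink := H.fink r X x 2 hD
    set B : Set E := {v : E | ‖v‖ ≤ 2 ∧ x + v ∈ X ∧ x - v ∉ X} with hB
    have hBfin : B.Finite := hfink.subset (fun v hv => ⟨hv.1, hv.2.1⟩)
    have hBne : B.Nonempty := by
      rw [negI_mem_Aut] at hneg
      push Not at hneg
      obtain ⟨u, hu, hu1, hu2⟩ := hneg
      exact ⟨u, hu, hu1, hu2⟩
    obtain ⟨u, huB, humin⟩ := Set.exists_min_image B (fun v => ‖v‖) hBfin hBne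
    have hu2 : ‖u‖ ≤ 2 := huB.1
    have hu0 : u ≠ 0 := by
      rintro rfl
      apply huB.2.2
      rw [sub_zero]; exact hx
    have hsu : s ≤ ‖u‖ := by
      have := hM.le x hx (x + u) huB.2.1 (by
        intro h
        exact hu0 (by simpa using h.symm))
      rwa [add_sub_cancel_left] at this
    have hA : Aut X x 2 ≤ Aut X x ‖u‖ := Aut_anti hu2
    have hirr' : Irr (Aut X x ‖u‖) := Irr_mono hA hirr
    have hneg' : negI ∉ Aut X x ‖u‖ := by
      rw [negI_mem_Aut]
      intro h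
      exact huB.2.2 (h u le_rfl huB.2.1)
    obtain ⟨w', hw', hw'X, hi'⟩ := indep_of_irr hu0 le_rfl huB.2.1 hirr'
    have hkey : ‖u‖ + 5 * s ≤ 9.96 := by
      rcases hsu.eq_or_lt with h | h
      · have := H.t12 r X s hD hs0 hM.le
        rw [← h]; linarith
      · refine H.t13 r X s ‖u‖ hD hM.le hs' h hu2 ?_ ?_
        · intro y hy z hz hzy
          obtain ⟨φ, hφ⟩ := hN x hx y hy
          have hv : ‖(φ⁻¹ : LI) (z - y)‖ < ‖u‖ := by rwa [LinearIsometryEquiv.norm_map]
          have h1 : x + (φ⁻¹ : LI) (z - y) ∈ X := by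
            refine (hφ _ (by linarith)).2 ?_
            rw [li_apply_inv]; simpa using hz
          have h2 : x - (φ⁻¹ : LI) (z - y) ∈ X := by
            by_contra hc
            have := humin _ ⟨by linarith, h1, hc⟩
            linarith
          have h3 := (hφ (-((φ⁻¹ : LI) (z - y))) (by rw [norm_neg]; linarith)).1 (by
            rw [← sub_eq_add_neg]; exact h2)
          rw [map_neg, li_apply_inv] at h3
          have e : y + -(z - y) = (2 : ℝ) • y - z := by rw [two_smul]; abel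
          rwa [e] at h3
        · refine ⟨x, hx, x + u, huB.2.1, by rw [add_sub_cancel_left], ?_⟩
          have e : (2 : ℝ) • x - (x + u) = x - u := by rw [two_smul]; abel
          rw [e]; exact huB.2.2
    refine H.t2 X x ‖u‖ s 5 hx (norm_nonneg _) hs0 hC (hN.mono (by push_cast; linarith))
      (H.fin r X x ‖u‖ u w' hD le_rfl hw' huB.2.1 hw'X hi')
      (om_le_four H hD (hN.mono (by linarith)) hx le_rfl hw' huB.2.1 hw'X hi' hneg')

/-- The irreducible case for `L ≤ 1.999999`. -/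
theorem c_irr (H : HH) {r : ℝ} {X : Set E} {s L : ℝ} (hD : Del r X) (hN : Nn X 9.999996) {x : E}
    (hx : x ∈ X) (hM : MinD X s) (hL0 : 0 < L) (hL : Lens X L) (hL2 : L ≤ 1.999999) (hC : Conn X L)
    (hirr : Irr (Aut X x 2)) (hneg : negI ∉ Aut X x 2) : Reg X := by
  obtain ⟨v, w, hv, hw, hvX, hwX, hi⟩ := exists_indep H.t0 hD hx
  have hfin := H.fin r X x 2 v w hD hv hw hvX hwX hi
  have hcase := H.t7 _ hfin hirr hneg
  by_cases h12 : Nat.card (Aut X x 2) = 12
  · refine H.t2 X x 2 L 4 hx (by norm_num) hL0 hC (hN.mono (by push_cast; linarith)) hfin ?_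
    rw [h12, om_big.1]; norm_num
  · have hcard : Nat.card (Aut X x 2) = 24 ∨ Nat.card (Aut X x 2) = 60 := by
      rcases hcase with h | h | h
      · exact absurd h h12
      · exact Or.inl h
      · exact Or.inr h
    have h1 := c5_eq H (hN.mono (by norm_num)) hx hM hL (by linarith) hfin hirr hneg hcard
    have h2 : s ≤ L := lens_ge hM hL hL0 hx
    have h3 : s = L := le_antisymm h2 (not_lt.1 h1)
    subst h3
    exact c5_fin H hD hN hx hM (by linarith) hC hirr hneg

end Pool.Agent.H576.RD
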