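import Mathlib
import Pool.Agent.H576.RD.Asm2

/-! # Assembly, part 3: reducible groups, `L ≤ 1.999999` -/

set_option autoImplicit false

open Real

namespace Pool.Agent.H576.RD

theorem norm_rotE (θ : ℝ) (v : E) : ‖rotE θ v‖ = ‖v‖ := by
  have h : ‖rotE θ v‖ ^ 2 = ‖v‖ ^ 2 := by
    rw [EuclideanSpace.norm_sq_eq, EuclideanSpace.norm_sq_eq, Fin.sum_univ_three, Fin.sum_univ_three]
    simp only [rotE, Real.norm_eq_abs, sq_abs]
    simp
    have := Real.sin_sq_add_cos_sq θ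
    linear_combination (v 0 ^ 2 + v 1 ^ 2) * this
  have h1 := norm_nonneg (rotE θ v)
  have h2 := norm_nonneg v
  nlinarith

theorem norm_rrE (θ : ℝ) (v : E) : ‖rrE θ v‖ = ‖v‖ := by
  have h : ‖rrE θ v‖ ^ 2 = ‖v‖ ^ 2 := by
    rw [EuclideanSpace.norm_sq_eq, EuclideanSpace.norm_sq_eq, Fin.sum_univ_three, Fin.sum_univ_three]
    simp only [rrE, Real.norm_eq_abs, sq_abs]
    simp
    have := Real.sin_sq_add_cos_sq θ
    linear_combination (v 0 ^ 2 + v 1 ^ 2) * this
  have h1 := norm_nonneg (rrE θ v)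
  have h2 := norm_nonneg v
  nlinarith

theorem rotE_add (a b : ℝ) (v : E) : rotE a (rotE b v) = rotE (a + b) v := by
  ext i
  fin_cases i <;> simp [rotE, Real.cos_add, Real.sin_add] <;> ring

theorem Sym_rot_mul {X : Set E} {ρ a b : ℝ} (h1 : Sym X ρ (rotE a)) (h2 : Sym X ρ (rotE b)) :
    Sym X ρ (rotE (a + b)) := by
  intro v hv
  rw [← rotE_add, h2 v hv]
  exact h1 _ (by rwa [norm_rotE])

theorem rotE_two_pi (a : ℝ) (v : E) : rotE (a + 2 * π) v = rotE a v := by
  simp [rotE]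

theorem neg_rrE (v : E) : rrE (π / 4) (-v) = rotE (5 * π / 4) v := by
  have h : 5 * π / 4 = π / 4 + π := by ring
  ext i
  fin_cases i <;> simp [rotE, rrE, h, Real.cos_add_pi, Real.sin_add_pi] <;> ring

theorem Sym_anti {X : Set E} {ρ σ : ℝ} {f : E → E} (h : Sym X ρ f) (hσ : σ ≤ ρ) : Sym X σ f :=
  fun v hv => h v (hv.trans hσ)

/-- With `-1` and `rrE (π/4)` we get the rotation by `π/4`. -/
theorem rot8 {X : Set E} {ρ : ℝ} (hs : Sym X ρ (rrE (π / 4))) (hneg : negI ∈ Aut X 0 ρ) :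
    Sym X ρ (rotE (2 * π / (8 : ℕ))) := by
  have h1 : Sym X ρ (rotE (5 * π / 4)) := by
    intro v hv
    rw [← neg_rrE, ← hs (-v) (by rwa [norm_neg])]
    have := (mem_Aut_zero.1 hneg) v hv
    rwa [negI_apply] at this
  have h2 := Sym_rot_mul h1 h1
  have h4 := Sym_rot_mul h2 h2
  have h5 := Sym_rot_mul h4 h1
  have e : (5 * π / 4 + 5 * π / 4 + (5 * π / 4 + 5 * π / 4) + 5 * π / 4) =
      2 * π / (8 : ℕ) + 2 * π + 2 * π + 2 * π := by push_cast; ring
  rw [e] at h5
  intro v hv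
  have h6 := h5 v hv
  rwa [rotE_two_pi, rotE_two_pi, rotE_two_pi] at h6

/-- The frame has a vector off the axis; minimal norm. -/
theorem exists_off_min (H : HH) {r : ℝ} {X : Set E} {ρ : ℝ} (hD : Del r X)
    (h : ∃ u ∈ X, ‖u‖ ≤ ρ ∧ Off u) :
    ∃ d, 0 < d ∧ d ≤ ρ ∧ (∃ v ∈ X, ‖v‖ = d ∧ Off v) ∧ ∀ v ∈ X, ‖v‖ ≤ ρ → Off v → d ≤ ‖v‖ := by
  have hf := H.fink r X 0 ρ hD
  set B : Set E := {v : E | ‖v‖ ≤ ρ ∧ v ∈ X ∧ Off v} with hB
  have hBf : B.Finite := hf.subset (fun v hv => ⟨hv.1, by rw [zero_add]; exact hv.2.1⟩)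
  obtain ⟨u, hu, hu1, hu2⟩ := h
  obtain ⟨m, hm, hmin⟩ := Set.exists_min_image B (fun v => ‖v‖) hBf ⟨u, hu1, hu, hu2⟩
  refine ⟨‖m‖, ?_, hm.1, ⟨m, hm.2.1, rfl, hm.2.2⟩, fun v hv hv1 hv2 => hmin v ⟨hv1, hv, hv2⟩⟩
  rw [norm_pos_iff]
  rintro rfl
  rcases hm.2.2 with h | h <;> simp at h

/-- Independence of an off-axis vector and its image under the rotoreflection. -/
theorem indep_rrE {v : E} (hv : Off v) : LinearIndependent ℝ ![v, rrE (π / 4) v] := by
  rw [LinearIndependent.pair_iff]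
  intro a b hab
  have h0 := congrArg (fun u : E => u 0) hab
  have h1 := congrArg (fun u : E => u 1) hab
  simp [rrE] at h0 h1
  -- (a + b c) v0 - b c v1 = 0, (a + b c) v1 + b c v0 = 0
  set c : ℝ := √2 / 2 with hc
  have hcpos : 0 < c := by positivity
  have hpos : 0 < v 0 ^ 2 + v 1 ^ 2 := by
    rcases hv with h | h
    · positivity
    · positivity
  have e1 : (b * c) * (v 0 ^ 2 + v 1 ^ 2) = 0 := by
    linear_combination (-(v 1)) * h0 + (v 0) * h1
  have hb : b = 0 := by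
    rcases mul_eq_zero.1 e1 with h | h
    · rcases mul_eq_zero.1 h with h | h
      · exact h
      · exact absurd h hcpos.ne'
    · exact absurd h hpos.ne'
  subst hb
  refine ⟨?_, rfl⟩
  have e2 : a * (v 0 ^ 2 + v 1 ^ 2) = 0 := by
    linear_combination (v 0) * h0 + (v 1) * h1
  rcases mul_eq_zero.1 e2 with h | h
  · exact h
  · exact absurd h hpos.ne'

/-- The group of order 16 with a rotoreflection of order 8. -/
theorem d4 (H : HH) {r : ℝ} {X : Set E} {L : ℝ} (hD : Del r X) (hN : Nn X 9.999996)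
    (h0 : (0 : E) ∈ X) (hsg : Sym X 2 (rrE (π / 4))) (hsm : Sym X 2 mirE) (hL0 : 0 < L)
    (hL : Lens X L) (hL2 : L ≤ 2) (hC : Conn X L) (hoff : ∃ u ∈ X, ‖u‖ ≤ 2 ∧ Off u) : Reg X := by
  obtain ⟨d, hd0, hd2, hdatt, hdle⟩ := exists_off_min H hD hoff
  have hH : D4H r X L d := ⟨hD, hN.mono (by norm_num), h0, hsg, hsm, hL0, hL2, hC, hL, hd0, hd2,
    hdatt, hdle⟩
  have hdL : d ≤ L := H.d4a r X L d hH
  have hdL' : d = L := by
    rcases hdL.eq_or_lt with h | h
    · exact h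
    · exact absurd (H.d4b r X L d hH h) (by simp)
  have hL3 := H.d4c r X L d hH hdL'
  have hL164 : L ≤ 1.64 := by
    by_contra hcon
    have hsep : ∀ x ∈ X, ∀ y ∈ X, x ≠ y → L ≤ ‖y - x‖ := by
      intro x hx y hy hxy
      by_contra hlt
      rw [not_le] at hlt
      obtain ⟨φ, hφ⟩ := hN 0 h0 x hx
      set v := (φ⁻¹ : LI) (y - x) with hv
      have hvn : ‖v‖ = ‖y - x‖ := by rw [hv, LinearIsometryEquiv.norm_map]
      have hvX : v ∈ X := by
        have := (hφ v (by linarith)).2 (by rw [hv, li_apply_inv]; simpa using hy)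
        rwa [zero_add] at this
      have hnoff : ¬ Off v := by
        intro ho
        have := hdle v hvX (by linarith) ho
        linarith
      have hve := eq_smul_e2 hnoff
      have hne2 : ‖e2‖ = 1 := by simp [e2]
      have hvabs : ‖v‖ = |v 2| := by
        conv_lhs => rw [hve]
        rw [norm_smul, hne2, mul_one, Real.norm_eq_abs]
      have hv2 : v 2 ≠ 0 := by
        intro h
        rw [h, abs_zero, hvn] at hvabs
        exact hxy (sub_eq_zero.1 (norm_eq_zero.1 hvabs)).symm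
      refine H.d4d r X L d hH hdL' hL3 ⟨|v 2|, abs_pos.2 hv2, by linarith, ?_⟩
      rcases le_total 0 (v 2) with h | h
      · rw [abs_of_nonneg h, ← hve]; exact hvX
      · rw [abs_of_nonpos h]
        have h1 := (hsg v (by linarith)).1 hvX
        have h2 : rrE (π / 4) v = (-(v 2)) • e2 := by
          unfold Off at hnoff
          push Not at hnoff
          ext i
          fin_cases i <;> simp [rrE, e2, hnoff.1, hnoff.2]
        rwa [h2] at h1
    exact hcon (H.t12 r X L hD hL0 hsep)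
  obtain ⟨v, hvX, hvd, hvo⟩ := hdatt
  have hwX : rrE (π / 4) v ∈ X := (hsg v (by linarith)).1 hvX
  have hwn : ‖rrE (π / 4) v‖ ≤ d := by rw [norm_rrE, hvd]
  have hneg : negI ∉ Aut X 0 d := by
    intro h
    exact H.t5a r X d 8 hD (hN.mono (by linarith)) h0 (by norm_num)
      (rot8 (Sym_anti hsg hd2) h) ⟨v, hvX, hvd.le, hvo⟩
  refine H.t2 X 0 d L 5 h0 hd0.le hL0 hC (hN.mono (by push_cast; linarith))
    (H.fin r X 0 d v _ hD hvd.le hwn (by rwa [zero_add]) (by rwa [zero_add]) (indep_rrE hvo))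
    (om_le_four H hD (hN.mono (by linarith)) h0 hvd.le hwn (by rwa [zero_add]) (by rwa [zero_add])
      (indep_rrE hvo) hneg)

/-- `rrE 0` and an even rotation group contain `-1`. -/
theorem neg_of_rr0 {G : Subgroup LI} {β : LI} {n : ℕ} (hn : n = 4 ∨ n = 6)
    (hrot : HasB G β (rotE (2 * π / n))) (hrr : HasB G β (rrE 0)) : negI ∈ G := by
  obtain ⟨g, hg, hgf⟩ := hrot
  obtain ⟨w, hw, hwf⟩ := hrr
  have hpow : ∀ k : ℕ, ∀ v, (g ^ k) (β v) = β (rotE (k * (2 * π / n)) v) := by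
    intro k
    induction k with
    | zero =>
      intro v
      simp [rotE]
      congr 1
      ext i; fin_cases i <;> simp
    | succ k ih =>
      intro v
      rw [pow_succ', li_mul_apply, ih, hgf, rotE_add]
      congr 2; push_cast; ring
  have hrr0 : ∀ v : E, rrE 0 (rotE π v) = -v := by
    intro v
    ext i; fin_cases i <;> simp [rrE, rotE]
  have hm : negI = w * g ^ (n / 2) := by
    ext1 u
    obtain ⟨v, rfl⟩ : ∃ v, u = β v := ⟨(β⁻¹ : LI) u, (li_apply_inv β u).symm⟩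
    rw [li_mul_apply, hpow, hwf, negI_apply]
    have e : ((n / 2 : ℕ) : ℝ) * (2 * π / n) = π := by
      rcases hn with h | h <;> subst h <;> norm_num <;> ring
    rw [e, hrr0, map_neg]
  rw [hm]
  exact G.mul_mem hw (G.pow_mem hg _)

/-- The reducible case for `L ≤ 1.999999`. -/
theorem c_red (H : HH) {r : ℝ} {X : Set E} {L : ℝ} (hD : Del r X) (hN : Nn X 9.999996) {x : E}
    (hx : x ∈ X) (hL0 : 0 < L) (hL : Lens X L) (hL2 : L ≤ 1.999999) (hC : Conn X L)
    (hirr : ¬ Irr (Aut X x 2)) (hneg : negI ∉ Aut X x 2) : Reg X := by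
  obtain ⟨v, w, hv, hw, hvX, hwX, hi⟩ := exists_indep H.t0 hD hx
  have hfin := H.fin r X x 2 v w hD hv hw hvX hwX hi
  have hfour : Om (Nat.card (Aut X x 2)) ≤ 3 → Reg X := fun h =>
    H.t2 X x 2 L 4 hx (by norm_num) hL0 hC (hN.mono (by push_cast; linarith)) hfin (by omega)
  obtain ⟨β, n, h1, h6, hrot, hoff, hc⟩ :=
    redu H hD (hN.mono (by norm_num)) hx hv hw hvX hwX hi hirr
  obtain ⟨o1, o2, o3, o4⟩ := om_small n h1 h6
  rcases hc with h | h | ⟨h, hmir, hrr⟩
  · exact hfour (by rw [h]; exact o1)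
  · exact hfour (by rw [h]; exact o2)
  · by_cases hn : n = 4 ∨ n = 6
    · rcases hrr with hrr | hrr
      · exact absurd (neg_of_rr0 hn hrot hrr) hneg
      · obtain ⟨u, hu, hu1, hu2, -⟩ := hoff
        have h0 : (0 : E) ∈ Mv X x β := zero_mem_Mv.2 hx
        rcases hn with hn | hn
        · subst hn
          apply Mv_Reg (x := x) (β := β)
          refine d4 H (Mv_Del hD) (Mv_Nn hN) h0 ?_ (Mv_Sym hmir) hL0 (Mv_Lens hL) (by linarith)
            (Mv_Conn hC) ⟨u, hu, hu1, hu2⟩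
          have := Mv_Sym hrr
          norm_num at this
          exact this
        · subst hn
          exfalso
          refine H.t5b r (Mv X x β) 2 (Mv_Del hD) (Mv_Nn (hN.mono (by norm_num))) h0 ?_
            ⟨u, hu, hu1, hu2⟩
          have := Mv_Sym hrr
          norm_num at this
          exact this
    · rw [not_or] at hn
      exact hfour (by rw [h]; exact o4 hn.1 hn.2)

end Pool.Agent.H576.RD
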