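import Mathlib
import Pool.Agent.H576.RD.Asm3

/-! # Assembly, part 4: the layered case and the final theorem -/

set_option autoImplicit false

open Real

namespace Pool.Agent.H576.RD

theorem negI_mul_negI (g : LI) : negI * (negI * g) = g := by
  ext1 v
  simp [li_mul_apply]

theorem negI_comm (g : LI) : negI * g = g * negI := by
  ext1 v
  simp [li_mul_apply]

/-- `G ∪ -G`. -/
noncomputable def dbl (G : Subgroup LI) : Subgroup LI where
  carrier := {g | g ∈ G ∨ negI * g ∈ G}
  mul_mem' := by
    rintro a b (ha | ha) (hb | hb)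
    · exact Or.inl (G.mul_mem ha hb)
    · right
      have := G.mul_mem ha hb
      rw [← mul_assoc, ← negI_comm, mul_assoc] at this
      exact this
    · right
      have := G.mul_mem ha hb
      rwa [mul_assoc] at this
    · left
      have := G.mul_mem ha hb
      have e : negI * a * (negI * b) = a * b := by
        rw [negI_comm a, mul_assoc, negI_mul_negI]
      rwa [e] at this
  one_mem' := Or.inl G.one_mem
  inv_mem' := by
    rintro a (ha | ha)
    · exact Or.inl (G.inv_mem ha)
    · right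
      have := G.inv_mem ha
      rw [mul_inv_rev] at this
      have e : (negI : LI)⁻¹ = negI := by
        rw [inv_eq_iff_mul_eq_one]
        have := negI_mul_negI 1
        rwa [mul_one] at this
      rw [e, ← negI_comm] at this
      exact this

theorem mem_dbl {G : Subgroup LI} {g : LI} : g ∈ dbl G ↔ g ∈ G ∨ negI * g ∈ G := Iff.rfl

theorem card_dbl {G : Subgroup LI} (hG : negI ∉ G) : Nat.card (dbl G) = 2 * Nat.card G := by
  classical
  have hb : Nat.card (Bool × G) = 2 * Nat.card G := by
    rw [Nat.card_prod]; simp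
  rw [← hb]
  have key : ∀ g : LI, g ∈ G → negI * g ∉ G := by
    intro g hg h
    apply hG
    have := G.mul_mem h (G.inv_mem hg)
    rwa [mul_assoc, mul_inv_cancel, mul_one] at this
  symm
  refine Nat.card_congr (Equiv.ofBijective
    (fun p : Bool × G => (⟨if p.1 then negI * p.2.1 else p.2.1, by
      rcases p with ⟨b, g⟩
      cases b
      · exact Or.inl g.2
      · right
        show negI * (negI * g.1) ∈ G
        rw [negI_mul_negI]; exact g.2⟩ : dbl G)) ⟨?_, ?_⟩)
  · rintro ⟨b, g⟩ ⟨c, h⟩ he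
    have he' := congrArg Subtype.val he
    cases b <;> cases c
    · simp only [Bool.false_eq_true, if_false] at he'
      exact Prod.ext rfl (Subtype.ext he')
    · exfalso
      simp only [Bool.false_eq_true, if_false, if_true] at he'
      exact key h.1 h.2 (by rw [← he']; exact g.2)
    · exfalso
      simp only [Bool.false_eq_true, if_false, if_true] at he'
      exact key g.1 g.2 (by rw [he']; exact h.2)
    · simp only [if_true] at he'
      exact Prod.ext rfl (Subtype.ext (mul_left_cancel he'))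
  · rintro ⟨g, hg⟩
    rcases hg with hg | hg
    · exact ⟨⟨false, g, hg⟩, rfl⟩
    · refine ⟨⟨true, negI * g, hg⟩, ?_⟩
      apply Subtype.ext
      show negI * (negI * g) = g
      exact negI_mul_negI g

theorem om_div {n m : ℕ} (hn : n = 4 ∨ n = 6) (h : 2 * m ∣ 4 * n) (hm : 3 ≤ Om m) :
    4 * n ≤ 2 * m := by
  rcases hn with hn | hn <;> subst hn
  · have h1 : m ∣ 8 := by
      have : 2 * m ∣ 2 * 8 := by simpa using h
      exact Nat.dvd_of_mul_dvd_mul_left (by norm_num) this
    have h2 : m ≤ 8 := Nat.le_of_dvd (by norm_num) h1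
    have h3 : 0 < m := Nat.pos_of_dvd_of_pos h1 (by norm_num)
    unfold Om at hm
    interval_cases m <;> simp_all
  · have h1 : m ∣ 12 := by
      have : 2 * m ∣ 2 * 12 := by simpa using h
      exact Nat.dvd_of_mul_dvd_mul_left (by norm_num) this
    have h2 : m ≤ 12 := Nat.le_of_dvd (by norm_num) h1
    have h3 : 0 < m := Nat.pos_of_dvd_of_pos h1 (by norm_num)
    unfold Om at hm
    interval_cases m <;> simp_all

theorem norm_e2 : ‖e2‖ = 1 := by simp [e2]

theorem case_b (H : HH) {r : ℝ} {X : Set E} {L : ℝ} (hD : Del r X) (hN : Nn X 9.999996) {x : E}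
    (hx : x ∈ X) (hL : Lens X L) (hL1 : 1.999999 ≤ L) (hL2 : L ≤ 2) (hC : Conn X L)
    (hneg : negI ∉ Aut X x 2) : Reg X := by
  have hL0 : 0 < L := by linarith
  obtain ⟨v, w, hv, hw, hvX, hwX, hi⟩ := H.r20 r X L hD (hN.mono (by norm_num)) hL hL1 hL2 x hx
  have hv' : ‖v‖ ≤ 1.8 := hv.trans (by norm_num)
  have hw' : ‖w‖ ≤ 1.8 := hw.trans (by norm_num)
  have hfin := H.fin r X x 1.8 v w hD hv' hw' hvX hwX hi
  have hv0 : v ≠ 0 := by simpa using hi.ne_zero 0
  have hirr : ¬ Irr (Aut X x 1.8) := by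
    intro hirr
    obtain ⟨b, hb, hbL, hz⟩ := hL x hx
    have hvn : 0 < ‖v‖ := norm_pos_iff.2 hv0
    obtain ⟨⟨g, hg, h1⟩, -⟩ := H.t9 _ hfin hirr ((1 / L) • (b - x)) ((1 / ‖v‖) • v)
      (by rw [norm_smul, hbL, Real.norm_of_nonneg (by positivity)]; field_simp)
      (by rw [norm_smul, Real.norm_of_nonneg (by positivity)]; field_simp)
    rw [map_smul, real_inner_smul_left, real_inner_smul_right] at h1
    have h2 := hz (x + g v) ((hg v hv').1 hvX) (by
      rw [add_sub_cancel_left, LinearIsometryEquiv.norm_map]; linarith)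
    have e : x + g v - b = g v - (b - x) := by abel
    rw [e] at h2
    have h3 : ‖g v - (b - x)‖ ^ 2 = ‖v‖ ^ 2 - 2 * inner ℝ (g v) (b - x) + L ^ 2 := by
      rw [norm_sub_sq_real, LinearIsometryEquiv.norm_map, hbL]
    have h4 : L ^ 2 ≤ ‖g v - (b - x)‖ ^ 2 := by
      have := norm_nonneg (g v - (b - x))
      nlinarith
    rw [real_inner_comm] at h1
    set t := inner ℝ (g v) (b - x) with ht
    have h5 : t ≤ ‖v‖ ^ 2 / 2 := by linarith
    have h6 : L * ‖v‖ / 3 ≤ t := by
      have : 1 / L * (1 / ‖v‖ * t) = t / (L * ‖v‖) := by field_simp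
      rw [this, le_div_iff₀ (by positivity)] at h1
      linarith
    nlinarith
  obtain ⟨β, n, h1, h6, hrot, hoff, hc⟩ :=
    redu H hD (hN.mono (by norm_num)) hx hv' hw' hvX hwX hi hirr
  obtain ⟨o1, o2, o3, o4⟩ := om_small n h1 h6
  have hfour : Om (Nat.card (Aut X x 1.8)) ≤ 3 → Reg X := fun h =>
    H.t2 X x 1.8 L 4 hx (by norm_num) hL0 hC (hN.mono (by push_cast; linarith)) hfin (by omega)
  rcases hc with h | h | ⟨h, hmir, hrr⟩
  · exact hfour (by rw [h]; exact o1)
  · exact hfour (by rw [h]; exact o2)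
  · by_cases hn : n = 4 ∨ n = 6
    · obtain ⟨u, hu, hu1, hu2, hu3⟩ := hoff
      have hu02 : ‖u‖ ≤ 0.2 := by
        rcases hu3 with h | h <;> rw [h, LinearIsometryEquiv.norm_map] <;> assumption
      have h0 : (0 : E) ∈ Mv X x β := zero_mem_Mv.2 hx
      rcases hrr with hrr | hrr
      · -- the layered case
        apply Mv_Reg (x := x) (β := β)
        have hD' : Del r (Mv X x β) := Mv_Del hD
        have hN' : Nn (Mv X x β) 9.999996 := Mv_Nn hN
        have hBH : BH r (Mv X x β) L n := ⟨hD', hN'.mono (by norm_num), h0, hn, Mv_Sym hrot,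
          Mv_Sym hrr, Mv_Lens hL, hL1, hL2, ⟨u, hu, hu02, hu2⟩⟩
        have hcardH : Nat.card (Aut (Mv X x β) 0 1.8) = 4 * n := by rw [card_Aut_Mv, h]
        have hfinH : Finite (Aut (Mv X x β) 0 1.8) := by
          apply Nat.finite_of_card_ne_zero
          rw [hcardH]; omega
        have hnegX : negI ∈ Aut X x 1.8 := neg_of_rr0 hn hrot hrr
        have hx0 : x + β 0 = x := by simp
        have hnegH : negI ∈ Aut (Mv X x β) 0 1.8 := by
          rw [mem_Aut_Mv, negI_conj, hx0]; exact hnegX
        have hneg2 : negI ∉ Aut (Mv X x β) 0 2.3 := by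
          rw [mem_Aut_Mv, negI_conj, hx0]
          intro h'
          exact hneg (Aut_anti (by norm_num) h')
        have hGH : Aut (Mv X x β) 0 2.3 ≤ Aut (Mv X x β) 0 1.8 := Aut_anti (by norm_num)
        have hfinG : Finite (Aut (Mv X x β) 0 2.3) :=
          Finite.of_injective (fun g => (⟨g.1, hGH g.2⟩ : Aut (Mv X x β) 0 1.8)) (by
            intro a b hab
            exact Subtype.ext (congrArg (fun z : Aut (Mv X x β) 0 1.8 => z.1) hab))
        by_cases hOm : Om (Nat.card (Aut (Mv X x β) 0 2.3)) < 3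
        · exact H.t2 (Mv X x β) 0 2.3 L 3 h0 (by norm_num) hL0 (Mv_Conn hC)
            (hN'.mono (by push_cast; linarith)) hfinG hOm
        · have hdblle : dbl (Aut (Mv X x β) 0 2.3) ≤ Aut (Mv X x β) 0 1.8 := by
            rintro g (hg | hg)
            · exact hGH hg
            · have := Subgroup.mul_mem _ hnegH (hGH hg)
              rwa [negI_mul_negI] at this
          have hdvd := Subgroup.card_dvd_of_le hdblle
          rw [card_dbl hneg2, hcardH] at hdvd
          have hle := om_div hn hdvd (not_lt.1 hOm)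
          have heq : dbl (Aut (Mv X x β) 0 2.3) = Aut (Mv X x β) 0 1.8 := by
            apply Subgroup.eq_of_le_of_card_ge hdblle
            rw [card_dbl hneg2, hcardH]; exact hle
          obtain ⟨s, hs, hM, hlay⟩ := H.b3 r (Mv X x β) L n hBH
          refine H.b4 r (Mv X x β) e2 s hD' (hN'.mono (by norm_num)) norm_e2 hs hM hlay ?_ ?_
          · intro y hy g hg
            obtain ⟨φ, hφ⟩ := hN' y hy 0 h0
            have h7 := (Aut_conj hφ (by norm_num : (1.8 : ℝ) ≤ 9.999996)).1 hg
            rw [← heq, mem_dbl] at h7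
            rcases h7 with h7 | h7
            · left; exact (Aut_conj hφ (by norm_num : (2.3 : ℝ) ≤ 9.999996)).2 h7
            · right
              rw [Aut_conj hφ (by norm_num : (2.3 : ℝ) ≤ 9.999996)]
              have e : φ * (negI * g) * φ⁻¹ = negI * (φ * g * φ⁻¹) := by
                rw [← mul_assoc φ negI g, ← negI_comm φ]; group
              rw [e]; exact h7
          · intro y hy hny
            obtain ⟨φ, hφ⟩ := hN' y hy 0 h0
            have h7 := (Aut_conj hφ (by norm_num : (2.3 : ℝ) ≤ 9.999996)).1 hny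
            rw [negI_conj] at h7
            exact hneg2 h7
      · exfalso
        rcases hn with hn | hn
        · subst hn
          refine H.b8 r (Mv X x β) L (Mv_Del hD) (Mv_Nn (hN.mono (by norm_num))) h0 ?_
            (Mv_Lens hL) (by linarith) ⟨u, hu, hu02, hu2⟩
          have := Mv_Sym hrr
          norm_num at this
          norm_num
          exact this
        · subst hn
          refine H.t5b r (Mv X x β) 1.8 (Mv_Del hD) (Mv_Nn (hN.mono (by norm_num))) h0 ?_
            ⟨u, hu, hu1, hu2⟩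
          have := Mv_Sym hrr
          norm_num at this
          norm_num
          exact this
    · rw [not_or] at hn
      exact hfour (by rw [h]; exact o4 hn.1 hn.2)

/-- The normalised theorem. -/
theorem main_del (H : HH) {r : ℝ} {X : Set E} (hD : Del r X) (hN : Nn X 9.999996) : Reg X := by
  obtain ⟨L, hL0, hL2, hC, hL⟩ := H.t4 r X hD (hN.mono (by norm_num))
  obtain ⟨s, hs2, hM⟩ := H.min r X hD (hN.mono (by norm_num))
  obtain ⟨x, hx, -⟩ := hD.cov 0
  by_cases hneg : negI ∈ Aut X x 2
  · refine H.t3 r X hD (hN.mono (by norm_num)) ?_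
    intro y hy
    obtain ⟨φ, hφ⟩ := hN x hx y hy
    have h1 := (Aut_conj hφ (by norm_num : (2 : ℝ) ≤ 9.999996)).1 hneg
    rw [negI_conj] at h1
    exact negI_mem_Aut.1 h1
  · by_cases hL1 : L ≤ 1.999999
    · by_cases hirr : Irr (Aut X x 2)
      · exact c_irr H hD hN hx hM hL0 hL hL1 hC hirr hneg
      · exact c_red H hD hN hx hL0 hL hL1 hC hirr hneg
    · exact case_b H hD hN hx hL (not_le.1 hL1).le hL2 hC hneg

/-- Linear part of an isometry. -/
theorem lin_part (g : E ≃ᵢ E) (x : E) : ∃ A : LI, ∀ v : E, g (x + v) = g x + A v := by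
  refine ⟨g.toRealAffineIsometryEquiv.linearIsometryEquiv, fun v => ?_⟩
  have h := g.toRealAffineIsometryEquiv.map_vadd x v
  rw [vadd_eq_add, vadd_eq_add] at h
  have e : ∀ z, g.toRealAffineIsometryEquiv z = g z := fun z => rfl
  rw [e, e] at h
  rw [add_comm x v, h, add_comm]

/-- The frozen statement, from all lemmas. -/
theorem frozen_of (H : HH) :
    ∃ c : ℝ, 0 < c ∧ c < 10 ∧
      ∀ r R : ℝ, 0 < r → r < R →
        ∀ X : Set (EuclideanSpace ℝ (Fin 3)),
          (∀ z : EuclideanSpace ℝ (Fin 3), (X ∩ Metric.ball z r).Subsingleton) →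
          (∀ z : EuclideanSpace ℝ (Fin 3), (X ∩ Metric.closedBall z R).Nonempty) →
          (∀ x ∈ X, ∀ y ∈ X,
            ∃ g : EuclideanSpace ℝ (Fin 3) ≃ᵢ EuclideanSpace ℝ (Fin 3),
              g x = y ∧
                g '' (X ∩ Metric.closedBall x (c * R)) = X ∩ Metric.closedBall y (c * R)) →
          (∀ x ∈ X, ∀ y ∈ X,
            ∃ g : EuclideanSpace ℝ (Fin 3) ≃ᵢ EuclideanSpace ℝ (Fin 3),
              g '' X = X ∧ g x = y) := by
  refine ⟨9.999996, by norm_num, by norm_num, ?_⟩
  intro r R hr hrR X hsep hcov hcl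
  have hR : 0 < R := hr.trans hrR
  set X₁ : Set E := {v | R • v ∈ X} with hX₁
  have hRinv : ∀ y : E, R • (R⁻¹ • y) = y := fun y => by
    rw [smul_smul, mul_inv_cancel₀ hR.ne', one_smul]
  have hsub : ∀ x y : E, ‖R • y - R • x‖ = R * ‖y - x‖ := fun x y => by
    rw [← smul_sub, norm_smul, Real.norm_of_nonneg hR.le]
  have hD : Del (r / R) X₁ := by
    refine ⟨by positivity, ?_, ?_⟩
    · intro x hx y hy hxy
      by_contra hlt
      rw [not_le] at hlt
      have h1 : ‖R • y - R • x‖ < r := by
        rw [hsub, ← lt_div_iff₀' hR]; exact hlt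
      have h2 := hsep (R • x) ⟨hx, Metric.mem_ball_self hr⟩
        ⟨hy, by rw [Metric.mem_ball, dist_eq_norm]; exact h1⟩
      exact hxy (smul_right_injective E hR.ne' h2)
    · intro z
      obtain ⟨y, hy, hyz⟩ := hcov (R • z)
      refine ⟨R⁻¹ • y, ?_, ?_⟩
      · show R • (R⁻¹ • y) ∈ X
        rw [hRinv]; exact hy
      · rw [Metric.mem_closedBall, dist_eq_norm] at hyz
        have h1 := hsub z (R⁻¹ • y)
        rw [hRinv] at h1
        rw [h1] at hyz
        nlinarith
  have hN : Nn X₁ 9.999996 := by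
    intro x hx y hy
    obtain ⟨g, hg, himg⟩ := hcl (R • x) hx (R • y) hy
    obtain ⟨A, hA⟩ := lin_part g (R • x)
    refine ⟨A, ?_⟩
    intro v hv
    have hbx : R • (x + v) ∈ Metric.closedBall (R • x) (9.999996 * R) := by
      rw [Metric.mem_closedBall, dist_eq_norm, hsub, add_sub_cancel_left]; nlinarith
    have hgv : g (R • (x + v)) = R • (y + A v) := by
      rw [smul_add, hA, hg, smul_add, map_smul]
    constructor
    · intro h
      have h1 : g (R • (x + v)) ∈ g '' (X ∩ Metric.closedBall (R • x) (9.999996 * R)) :=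
        ⟨_, ⟨h, hbx⟩, rfl⟩
      rw [himg, hgv] at h1
      exact h1.1
    · intro h
      have hby : R • (y + A v) ∈ Metric.closedBall (R • y) (9.999996 * R) := by
        rw [Metric.mem_closedBall, dist_eq_norm, hsub, add_sub_cancel_left,
          LinearIsometryEquiv.norm_map]; nlinarith
      have h1 : R • (y + A v) ∈ X ∩ Metric.closedBall (R • y) (9.999996 * R) := ⟨h, hby⟩
      rw [← himg] at h1
      obtain ⟨z, hz, hgz⟩ := h1
      have : z = R • (x + v) := g.injective (by rw [hgz, hgv])
      rw [this] at hz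
      exact hz.1
  have hreg := main_del H hD hN
  intro x hx y hy
  obtain ⟨g, hg, hgx⟩ := hreg (R⁻¹ • x) (by show R • (R⁻¹ • x) ∈ X; rwa [hRinv]) (R⁻¹ • y)
    (by show R • (R⁻¹ • y) ∈ X; rwa [hRinv])
  obtain ⟨A, hA⟩ := lin_part g (R⁻¹ • x)
  have hform : ∀ v : E, g (R⁻¹ • v) = R⁻¹ • (y + A (v - x)) := by
    intro v
    have e : R⁻¹ • v = R⁻¹ • x + R⁻¹ • (v - x) := by rw [← smul_add]; congr 1; abel
    rw [e, hA, hgx, map_smul, ← smul_add]
  refine ⟨aff (y - A x) A, ?_, ?_⟩
  · have haff : ∀ v, aff (y - A x) A v = y + A (v - x) := by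
      intro v; rw [aff_apply, map_sub]; abel
    ext z
    constructor
    · rintro ⟨v, hv, rfl⟩
      rw [haff]
      have h1 : g (R⁻¹ • v) ∈ g '' X₁ := ⟨_, by show R • (R⁻¹ • v) ∈ X; rwa [hRinv], rfl⟩
      rw [hg, hform] at h1
      have h2 : R • (R⁻¹ • (y + A (v - x))) ∈ X := h1
      rwa [hRinv] at h2
    · intro hz
      have h1 : R⁻¹ • z ∈ g '' X₁ := by rw [hg]; show R • (R⁻¹ • z) ∈ X; rwa [hRinv]
      obtain ⟨v, hv, hgv⟩ := h1
      refine ⟨R • v, hv, ?_⟩
      rw [haff]
      have h2 := hform (R • v)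
      rw [smul_smul, inv_mul_cancel₀ hR.ne', one_smul, hgv] at h2
      exact (smul_right_injective E (inv_ne_zero hR.ne') h2).symm
  · rw [aff_apply]; abel

end Pool.Agent.H576.RD
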