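import Mathlib
import Pool.Agent.H576.RD.Asm4
import Pool.Agent.H236.RDBASIC
import Pool.Agent.H236.RDCYC
import Pool.Agent.H358.RDPole
import Pool.Agent.H784.RDB4
import Pool.Agent.H357.RDCT2
import Pool.Agent.H860.RDB2
import Pool.Agent.H407.RDCT1b
import Pool.Agent.H296.RDT12
import Pool.Agent.H903.RDT2
import Pool.Agent.H903.RDT13
import Pool.Agent.H772.RDT9
import Pool.Agent.H670.RDCO
import Pool.Agent.H100.RDT5AB
import Pool.Agent.H161.RDR20
import Pool.Agent.H59.RDT3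
import Pool.Agent.H261.RDT4
import Pool.Agent.H278.RDGAM
import Pool.Agent.H282.RDC60
import Pool.Agent.H284.RDD4a
import Pool.Agent.H695.RDR20A
import Pool.Agent.H553.RD.D4B1
import Pool.Agent.H658.RDD4B2
import Pool.Agent.H921.RDD4C
import Pool.Agent.H200.RDD4d1
import Pool.Agent.H249.RDD4d2
import Pool.Agent.H195.RDG1
import Pool.Agent.H52.RDLP
import Pool.Agent.H94.RDB3
import Pool.Agent.H726.RDCT1a
import Pool.Agent.H872.RDT8
import Pool.Agent.H872.RDT860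

/-! # All lemmas together -/

set_option autoImplicit false

namespace Pool.Agent.H576.RD

theorem fink : S_FINK := Pool.Agent.H236.rd_fink
theorem t0 : S_T0 := Pool.Agent.H236.rd_t0
theorem mind : S_MIN := Pool.Agent.H236.rd_min
theorem fin : S_FIN := Pool.Agent.H236.rd_fin
theorem cyc : S_CYC := Pool.Agent.H236.rd_cyc
theorem pole : S_POLE := Pool.Agent.H358.RDPole.rd_pole
theorem gam : S_GAM := Pool.Agent.H278.rd_gam
theorem lp : S_LP := Pool.Agent.H52.rd_lp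
theorem t5c : S_T5c := Pool.Agent.H52.rd_t5c lp
theorem t9 : S_T9 := Pool.Agent.H772.rd_t9
theorem t12 : S_T12 := Pool.Agent.H296.rd_t12 fink
theorem t860 : S_T860 := Pool.Agent.H872.rd_t860 gam cyc pole

theorem d4b : S_D4b := by
  intro r X L d h hd
  obtain ⟨X', h', hm, hd', ϱ, hh, a1, a2, a3, a4, a5⟩ :=
    Pool.Agent.H553.RD.rd_d4b1 fink lp t5c t12 r X L d h hd
  exact Pool.Agent.H658.rd_d4b2 lp t5c r X' L d ϱ hh h' hm hd' a1 a2 a3 a4 a5

theorem d4d : S_D4d := by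
  intro r X L d h hd hL ht
  obtain ⟨τ, a1, a2, a3, a4, a5, a6⟩ := Pool.Agent.H200.rd_d4d1 fink lp t5c r X L d h hd ht
  exact Pool.Agent.H249.rd_d4d2 r X L d τ h hd hL a1 a2 a3 a4 a5 a6

theorem all_lemmas : HH where
  fink := fink
  t0 := t0
  min := mind
  fin := fin
  t4 := Pool.Agent.H261.rd_t4 fink t0
  t2 := Pool.Agent.H903.rd_t2
  t3 := Pool.Agent.H59.rd_t3 fink
  t9 := t9
  t7 := Pool.Agent.H278.rd_t7 gam pole
  t8 := Pool.Agent.H872.rd_t8 gam cyc pole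
  g1 := Pool.Agent.H195.rd_g1 cyc
  t5a := Pool.Agent.H100.rd_t5a fink lp
  t5b := Pool.Agent.H100.rd_t5b fink lp
  t12 := t12
  t13 := Pool.Agent.H903.rd_t13 fink
  c60 := Pool.Agent.H282.rd_c60 t860 t9
  co := Pool.Agent.H670.rd_co
  ct1a := Pool.Agent.H726.rd_ct1a
  ct1b := Pool.Agent.H407.rd_ct1b
  ct2 := Pool.Agent.H357.rd_ct2
  d4a := Pool.Agent.H284.rd_d4a
  d4b := d4b
  d4c := Pool.Agent.H921.rd_d4c t0 lp
  d4d := d4d
  r20 := Pool.Agent.H161.rd_r20 fink Pool.Agent.H695.rd_r20a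
  b8 := Pool.Agent.H52.rd_b8 fink t5c
  b3 := Pool.Agent.H94.rd_b3 (Pool.Agent.H860.rd_b2 fink mind lp)
  b4 := Pool.Agent.H784.rd_b4 t0

end Pool.Agent.H576.RD
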